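import Mathlib

set_option autoImplicit false
open MvPolynomial

namespace Pool.Agent.H193R6.DG

abbrev L := AddMonoidAlgebra (Polynomial ℂ) ℤ
abbrev R := MvPolynomial (Fin 2) ℂ

/-- `X ↦ T`, `Y ↦ s T⁻²`, so that `s = X² Y`. -/
noncomputable def Phi : R →+* L :=
  eval₂Hom ((LaurentPolynomial.C : Polynomial ℂ →+* L).comp Polynomial.C)
    ![AddMonoidAlgebra.single (1 : ℤ) (1 : Polynomial ℂ),
      AddMonoidAlgebra.single (-2 : ℤ) (Polynomial.X : Polynomial ℂ)]

/-- the exponent vector `(a, b)` -/
noncomputable def mk (a b : ℕ) : Fin 2 →₀ ℕ := Finsupp.single 0 a + Finsupp.single 1 b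

@[simp] lemma mk_zero (a b : ℕ) : mk a b 0 = a := by simp [mk]
@[simp] lemma mk_one (a b : ℕ) : mk a b 1 = b := by simp [mk]

lemma eq_mk (m : Fin 2 →₀ ℕ) : m = mk (m 0) (m 1) := by
  ext i; fin_cases i <;> simp

lemma Phi_monomial (m : Fin 2 →₀ ℕ) (a : ℂ) :
    Phi (monomial m a) = AddMonoidAlgebra.single ((m 0 : ℤ) - 2 * m 1)
      (Polynomial.monomial (m 1) a) := by
  unfold Phi
  rw [coe_eval₂Hom, eval₂_monomial, Finsupp.prod_fintype _ _ (by simp), Fin.prod_univ_two]
  simp only [Matrix.cons_val_zero, Matrix.cons_val_one, RingHom.comp_apply,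
    AddMonoidAlgebra.single_pow]
  rw [← LaurentPolynomial.single_eq_C, AddMonoidAlgebra.single_mul_single,
    AddMonoidAlgebra.single_mul_single]
  congr 1
  · simp; ring
  · simp [Polynomial.C_mul_X_pow_eq_monomial]

lemma Phi_coeff (f : R) (n : ℤ) (j : ℕ) :
    ((Phi f).coeff n).coeff j = if 0 ≤ n + 2 * j then coeff (mk (n + 2 * j).toNat j) f else 0 := by
  induction f using MvPolynomial.induction_on' with
  | monomial m a =>
    rw [Phi_monomial, AddMonoidAlgebra.coeff_single, Finsupp.single_apply, coeff_monomial]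
    by_cases h1 : (m 0 : ℤ) - 2 * m 1 = n
    · rw [if_pos h1, Polynomial.coeff_monomial]
      by_cases h2 : m 1 = j
      · subst h2
        have h3 : (0 : ℤ) ≤ n + 2 * (m 1 : ℕ) := by omega
        rw [if_pos rfl, if_pos h3, if_pos]
        have h4 : (n + 2 * (m 1 : ℕ)).toNat = m 0 := by omega
        rw [h4]; exact eq_mk m
      · rw [if_neg h2]
        split_ifs with h3 h4
        · exact absurd (by rw [h4]; simp) h2
        · rfl
        · rfl
    · rw [if_neg h1]
      split_ifs with h3 h4
      · exfalso; apply h1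
        rw [h4]
        simp only [mk_zero, mk_one]
        omega
      · simp
      · simp
  | add p q hp hq =>
    rw [map_add, AddMonoidAlgebra.coeff_add, Finsupp.add_apply, Polynomial.coeff_add, hp, hq]
    split_ifs <;> simp

lemma mulc (F G : L) (S : Finset ℤ) (hS : F.coeff.support ⊆ S) (n : ℤ) :
    (F * G).coeff n = ∑ i ∈ S, F.coeff i * G.coeff (n - i) := by
  rw [AddMonoidAlgebra.coeff_mul_apply_left, Finsupp.sum]
  refine (Finset.sum_subset hS ?_).trans ?_
  · intro i _ hi
    rw [Finsupp.notMem_support_iff.1 hi, zero_mul]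
  · refine Finset.sum_congr rfl fun i _ => ?_
    rw [neg_add_eq_sub]

lemma X_mul_pderiv (i : Fin 2) (m : Fin 2 →₀ ℕ) (a : ℂ) :
    (X i : R) * pderiv i (monomial m a) = monomial m (a * m i) := by
  rw [pderiv_monomial, X, monomial_mul, one_mul]
  by_cases h : m i = 0
  · rw [h]; simp
  · have e : Finsupp.single i 1 + (m - Finsupp.single i 1) = m := by
      apply Finsupp.ext
      intro k
      by_cases hk : k = i
      · subst hk
        simp only [Finsupp.add_apply, Finsupp.tsub_apply, Finsupp.single_eq_same]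
        omega
      · simp [Finsupp.single_apply, Ne.symm hk]
    rw [e]

lemma coeff_E1 (f : R) (n : ℤ) :
    (Phi ((X 1 : R) * pderiv 1 f)).coeff n
      = Polynomial.X * Polynomial.derivative ((Phi f).coeff n) := by
  induction f using MvPolynomial.induction_on' with
  | monomial m a =>
    rw [X_mul_pderiv, Phi_monomial, Phi_monomial, AddMonoidAlgebra.coeff_single,
      AddMonoidAlgebra.coeff_single, Finsupp.single_apply, Finsupp.single_apply]
    split_ifs with h
    · rw [Polynomial.derivative_monomial, ← Polynomial.monomial_one_one_eq_X,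
        Polynomial.monomial_mul_monomial]
      by_cases h : m 1 = 0
      · rw [h]; simp
      · have h1 : 1 + (m 1 - 1) = m 1 := by omega
        rw [h1]; simp
    · simp
  | add p q hp hq =>
    rw [map_add, mul_add, map_add, map_add, AddMonoidAlgebra.coeff_add, Finsupp.add_apply, hp, hq,
      AddMonoidAlgebra.coeff_add, Finsupp.add_apply, map_add, mul_add]

lemma coeff_E0 (f : R) (n : ℤ) :
    (Phi ((X 0 : R) * pderiv 0 f)).coeff n
      = (n : Polynomial ℂ) * (Phi f).coeff n
        + 2 * (Polynomial.X * Polynomial.derivative ((Phi f).coeff n)) := by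
  induction f using MvPolynomial.induction_on' with
  | monomial m a =>
    have e1 := coeff_E1 (monomial m a) n
    rw [← e1, X_mul_pderiv, X_mul_pderiv, Phi_monomial, Phi_monomial, Phi_monomial,
      AddMonoidAlgebra.coeff_single, AddMonoidAlgebra.coeff_single,
      AddMonoidAlgebra.coeff_single, Finsupp.single_apply, Finsupp.single_apply,
      Finsupp.single_apply]
    split_ifs with h
    · rw [← h]
      have h1 : (((m 0 : ℤ) - 2 * m 1 : ℤ) : Polynomial ℂ)
          = Polynomial.C ((m 0 : ℂ) - 2 * m 1) := by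
        push_cast
        rw [map_sub, map_mul, map_natCast, map_natCast, map_ofNat]
      have h2 : (2 : Polynomial ℂ) = Polynomial.C 2 := (map_ofNat Polynomial.C 2).symm
      rw [h1, h2, Polynomial.C_mul_monomial, Polynomial.C_mul_monomial, ← map_add]
      congr 1
      ring
    · simp
  | add p q hp hq =>
    rw [map_add, mul_add, map_add, map_add, AddMonoidAlgebra.coeff_add, Finsupp.add_apply, hp, hq,
      AddMonoidAlgebra.coeff_add, Finsupp.add_apply, map_add]
    ring

/-- The bracket of two homogeneous pieces `X^i a(s)` and `X^j b(s)`. -/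
noncomputable def bk (i : ℤ) (a : Polynomial ℂ) (j : ℤ) (b : Polynomial ℂ) : Polynomial ℂ :=
  (i : Polynomial ℂ) * (a * Polynomial.derivative b)
    - (j : Polynomial ℂ) * (Polynomial.derivative a * b)

/-- The Jacobian determinant. -/
noncomputable def Jac (f g : R) : R := pderiv 0 f * pderiv 1 g - pderiv 1 f * pderiv 0 g

theorem key (f g : R) (c : ℂ) (hJ : Jac f g = C c) (n : ℤ) :
    ∑ i ∈ (Phi f).coeff.support, bk i ((Phi f).coeff i) (n - i) ((Phi g).coeff (n - i))
      = if n = -1 then Polynomial.C c else 0 := by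
  set S := (Phi f).coeff.support with hS
  have h0 : (X 0 : R) * pderiv 0 f * (X 1 * pderiv 1 g) - X 1 * pderiv 1 f * (X 0 * pderiv 0 g)
      = X 0 * X 1 * C c := by
    rw [← hJ, Jac]; ring
  have h1 := congrArg (fun z => (Phi z).coeff n) h0
  simp only [map_sub, map_mul Phi (X 0 * pderiv 0 f), map_mul Phi (X 1 * pderiv 1 f),
    AddMonoidAlgebra.coeff_sub, Finsupp.sub_apply] at h1
  have s1 : (Phi (X 0 * pderiv 0 f)).coeff.support ⊆ S := by
    intro i hi
    rw [Finsupp.mem_support_iff, coeff_E0] at hi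
    rw [hS, Finsupp.mem_support_iff]
    intro h; apply hi; rw [h]; simp
  have s2 : (Phi (X 1 * pderiv 1 f)).coeff.support ⊆ S := by
    intro i hi
    rw [Finsupp.mem_support_iff, coeff_E1] at hi
    rw [hS, Finsupp.mem_support_iff]
    intro h; apply hi; rw [h]; simp
  rw [mulc _ _ S s1, mulc _ _ S s2, ← Finset.sum_sub_distrib] at h1
  have h2 : (X 0 * X 1 * C c : R) = monomial (mk 1 1) c := by
    rw [mul_comm, ← mul_assoc, C_mul_X_eq_monomial, X, monomial_mul, mul_one]
    rfl
  rw [h2, Phi_monomial, AddMonoidAlgebra.coeff_single, Finsupp.single_apply] at h1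
  simp only [mk_zero, mk_one] at h1
  apply mul_left_cancel₀ (Polynomial.X_ne_zero (R := ℂ))
  have h3 : (if (((1 : ℕ) : ℤ) - 2 * ((1 : ℕ) : ℤ)) = n then Polynomial.monomial 1 c else 0)
      = Polynomial.X * (if n = -1 then Polynomial.C c else 0) := by
    by_cases h : n = -1
    · rw [if_pos h, if_pos (by omega), mul_comm, Polynomial.C_mul_X_eq_monomial]
    · rw [if_neg h, if_neg (by omega), mul_zero]
  rw [← h3, ← h1, Finset.mul_sum]
  refine Finset.sum_congr rfl fun i _ => ?_
  rw [coeff_E0, coeff_E1, coeff_E0, coeff_E1, bk]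
  push_cast
  ring

end Pool.Agent.H193R6.DG
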