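import Pool.Agent.H193R6.DG.Ratio

set_option autoImplicit false
open MvPolynomial

namespace Pool.Agent.H193R6.DG

lemma cmp_ne (f : R) (d : ℤ) (hd : d ∈ (Phi f).coeff.support) : cmp d f ≠ 0 := by
  intro h
  have h1 := Phi_cmp d f
  rw [h, map_zero] at h1
  have h2 := congrArg (fun z => z.coeff d) h1
  simp only [AddMonoidAlgebra.coeff_single, Finsupp.single_eq_same, AddMonoidAlgebra.coeff_zero,
    Finsupp.coe_zero, Pi.zero_apply] at h2
  exact (Finsupp.mem_support_iff.1 hd) h2.symm

/-- from a vanishing bracket of two extreme components to a proper power -/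
lemma extract (f g : R) (d m : ℤ) (hd : d ∈ (Phi f).coeff.support)
    (hm : m ∈ (Phi g).coeff.support)
    (ha : 1 ≤ ((Phi f).coeff d).natDegree) (hb : 1 ≤ ((Phi g).coeff m).natDegree)
    (hbk : bk d ((Phi f).coeff d) m ((Phi g).coeff m) = 0) (κ : ℤ) (hκ : κ ≠ 0) (i' j' : ℕ)
    (hi2 : 2 ≤ i') (hcop : Nat.Coprime i' j') (hdE : d = κ * i') (hmE : m = κ * j') :
    ∃ h : R, cmp d f = h ^ i' := by
  have hP0 := cmp_ne f d hd
  have hne : ((κ : ℤ) : Polynomial ℂ) ≠ 0 := by exact_mod_cast hκ
  have h1 : (d : Polynomial ℂ) = ((κ : ℤ) : Polynomial ℂ) * (i' : Polynomial ℂ) := by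
    have := congrArg (Int.cast : ℤ → Polynomial ℂ) hdE
    rw [this]; push_cast; ring
  have h2 : (m : Polynomial ℂ) = ((κ : ℤ) : Polynomial ℂ) * (j' : Polynomial ℂ) := by
    have := congrArg (Int.cast : ℤ → Polynomial ℂ) hmE
    rw [this]; push_cast; ring
  obtain ⟨c', hc'⟩ := pow_rel i' j' ((Phi f).coeff d) ((Phi g).coeff m) ha hb (by omega) (by
    apply mul_left_cancel₀ hne
    rw [bk] at hbk
    linear_combination hbk
      - ((Phi f).coeff d * Polynomial.derivative ((Phi g).coeff m)) * h1
      + (Polynomial.derivative ((Phi f).coeff d) * (Phi g).coeff m) * h2)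
  have hc'0 : c' ≠ 0 := by
    rintro rfl
    rw [map_zero, zero_mul] at hc'
    exact (Finsupp.mem_support_iff.1 hm) (pow_eq_zero_iff (by omega) |>.1 hc')
  have hT : (cmp m g) ^ i' = C c' * (cmp d f) ^ j' := by
    apply Phi_inj
    have hC : Phi (C c' : R) = AddMonoidAlgebra.single (0 : ℤ) (Polynomial.C c') := by
      rw [← MvPolynomial.monomial_zero', Phi_monomial]
      simp
    rw [map_pow, map_mul, map_pow, Phi_cmp, Phi_cmp, hC, AddMonoidAlgebra.single_pow,
      AddMonoidAlgebra.single_pow, AddMonoidAlgebra.single_mul_single, hc']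
    congr 1
    rw [nsmul_eq_mul, nsmul_eq_mul, zero_add]
    calc (i' : ℤ) * m = i' * (κ * j') := by rw [← hmE]
      _ = j' * (κ * i') := by push_cast; ring
      _ = j' * d := by rw [← hdE]
  exact root_lemma _ _ i' j' hi2 hcop hP0 c' hc'0 hT

theorem both_power (f : R) (hf : f ∈ AA) (hf0 : coeff 0 f = 0)
    (c : ℂ) (hc : c ≠ 0) (d e : ℤ) (hd : d ∈ (Phi f).coeff.support) (hd0 : 0 < d)
    (hdmax : ∀ i ∈ (Phi f).coeff.support, i ≤ d)
    (he : e ∈ (Phi f).coeff.support) (he0 : e < 0)
    (hemin : ∀ i ∈ (Phi f).coeff.support, e ≤ i) :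
    ∀ N : ℕ, ∀ g : R, g ∈ AA → coeff 0 g = 0 → Jac f g = C c →
      (∀ j ∈ (Phi g).coeff.support, j ≤ N) →
      ∃ r : ℕ, 2 ≤ r ∧ (∃ h : R, cmp d f = h ^ r) ∧ (∃ h : R, cmp e f = h ^ r) := by
  have nf := nice_of_mem f hf hf0
  have hFtop : ∀ i, d < i → (Phi f).coeff i = 0 := by
    intro i hi
    rw [← Finsupp.notMem_support_iff]
    intro h
    have := hdmax i h
    omega
  intro N
  induction N with
  | zero =>
    intro g hg hg0 hJ hN
    exfalso
    have ng := nice_of_mem g hg hg0
    obtain ⟨j, hj, hj0⟩ := T (eqn_of f g c hJ) nf ng hc d hd hd0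
    have := hN j hj
    push_cast at this
    omega
  | succ N ih =>
    intro g hg hg0 hJ hN
    have ng := nice_of_mem g hg hg0
    have E := eqn_of f g c hJ
    have E' := eqn_of' f g c hJ
    obtain ⟨j, hj, hj0⟩ := T E nf ng hc d hd hd0
    obtain ⟨j2, hj2, hj20⟩ := negW E' ng nf (neg_ne_zero.2 hc)
    obtain ⟨m, hm, hmmax⟩ := Finset.exists_max_image (Phi g).coeff.support id ⟨j, hj⟩
    obtain ⟨l, hl, hlmin⟩ := Finset.exists_min_image (Phi g).coeff.support id ⟨j, hj⟩
    simp only [id] at hmmax hlmin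
    have hm0 : 0 < m := lt_of_lt_of_le hj0 (hmmax j hj)
    have hl0 : l < 0 := lt_of_le_of_lt (hlmin j2 hj2) hj20
    have hbk : bk d ((Phi f).coeff d) m ((Phi g).coeff m) = 0 := by
      have e := E (d + m)
      rw [Finset.sum_eq_single d] at e
      · rw [show d + m - d = m by ring, if_neg (by omega)] at e
        exact e
      · intro i hi hid
        have hi2 : d + m - i ∉ (Phi g).coeff.support := fun hmem => by
          have a1 := hmmax _ hmem
          have a2 := hdmax i hi
          omega
        rw [Finsupp.notMem_support_iff.1 hi2, bk_zero_right]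
      · exact fun h => absurd hd h
    have hbk2 : bk e ((Phi f).coeff e) l ((Phi g).coeff l) = 0 := by
      have e1 := E (e + l)
      rw [Finset.sum_eq_single e] at e1
      · rw [show e + l - e = l by ring, if_neg (by omega)] at e1
        exact e1
      · intro i hi hid
        have hi2 : e + l - i ∉ (Phi g).coeff.support := fun hmem => by
          have a1 := hlmin _ hmem
          have a2 := hemin i hi
          omega
        rw [Finsupp.notMem_support_iff.1 hi2, bk_zero_right]
      · exact fun h => absurd he h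
    have ha := nf.deg d (Finsupp.mem_support_iff.1 hd)
    have hb := ng.deg m (Finsupp.mem_support_iff.1 hm)
    have ha2 := nf.deg e (Finsupp.mem_support_iff.1 he)
    have hb2 := ng.deg l (Finsupp.mem_support_iff.1 hl)
    have hd00 : d ≠ 0 := hd0.ne'
    by_cases hdiv : d ∣ m
    · obtain ⟨k, hk⟩ := hdiv
      have hk0 : 0 < k := by
        rw [hk] at hm0
        exact (mul_pos_iff_of_pos_left hd0).1 hm0
      obtain ⟨t, rfl⟩ : ∃ t : ℕ, k = t := ⟨k.toNat, by omega⟩
      subst hk
      have ht1 : 1 ≤ t := by exact_mod_cast hk0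
      have hdC : ((d : ℤ) : Polynomial ℂ) ≠ 0 := by exact_mod_cast hd00
      have htdeg := bk_top d (d * t) _ _ ha hb (by rw [hbk]; simp)
      obtain ⟨c', hc'⟩ := ode ((Phi f).coeff d) ((Phi g).coeff (d * t)) t ha
        (by
          have : d * ((((Phi g).coeff (d * t)).natDegree : ℤ) - t * ((Phi f).coeff d).natDegree)
              = 0 := by
            linear_combination htdeg
          rcases mul_eq_zero.1 this with h | h
          · exact absurd h hd00
          · have h2 : (((Phi g).coeff (d * t)).natDegree : ℤ)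
                = t * ((Phi f).coeff d).natDegree := by
              linarith
            exact_mod_cast h2)
        (Finsupp.mem_support_iff.1 hm)
        (by
          rw [bk] at hbk
          push_cast at hbk
          apply mul_left_cancel₀ hdC
          linear_combination hbk)
      obtain ⟨tp1, tp2⟩ := topPow (Phi f) d hFtop t
      have hPhi : ∀ j : ℤ, (Phi (g - C c' * f ^ t)).coeff j
          = (Phi g).coeff j - Polynomial.C c' * ((Phi f) ^ t).coeff j := by
        intro j
        have hC : Phi (C c' : R) = AddMonoidAlgebra.single (0 : ℤ) (Polynomial.C c') := by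
          rw [← MvPolynomial.monomial_zero', Phi_monomial]
          simp
        rw [map_sub, map_mul, map_pow, hC, AddMonoidAlgebra.coeff_sub, Finsupp.sub_apply]
        congr 1
        rw [mulc _ _ {0} (by
          rw [AddMonoidAlgebra.coeff_single]
          exact Finsupp.support_single_subset), Finset.sum_singleton, sub_zero,
          AddMonoidAlgebra.coeff_single, Finsupp.single_eq_same]
      refine ih (g - C c' * f ^ t) ?_ ?_ ?_ ?_
      · exact AA.sub_mem hg (AA.mul_mem (AA_C c') (AA.pow_mem hf t))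
      · rw [coeff_sub, coeff_C_mul, hg0, ← constantCoeff_eq, map_pow, constantCoeff_eq, hf0,
          zero_pow (by omega)]
        simp
      · rw [← hJ]
        unfold Jac
        obtain ⟨t', rfl⟩ : ∃ t', t = t' + 1 := ⟨t - 1, by omega⟩
        simp only [map_sub, Derivation.leibniz, Derivation.leibniz_pow, pderiv_C, smul_zero,
          smul_eq_mul, add_zero, Nat.add_sub_cancel]
        simp only [nsmul_eq_mul]
        ring
      · intro j hj
        have hj' := Finsupp.mem_support_iff.1 hj
        rw [hPhi] at hj'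
        by_contra hlt
        push Not at hlt
        apply hj'
        rcases lt_trichotomy (d * t : ℤ) j with h | h | h
        · rw [tp1 j h, mul_zero, sub_zero]
          rw [← Finsupp.notMem_support_iff]
          intro hmem
          exact absurd (hmmax j hmem) (not_le.2 h)
        · rw [← h, tp2, hc', sub_self]
        · exfalso
          have := hN _ hm
          push_cast at this
          omega
    · have hrat := ratio E nf ng d e m l hd hdmax he hemin hm hmmax hl hlmin hd0 he0
      obtain ⟨i', j', hcop, hi', hj'⟩ := Nat.exists_coprime d.natAbs m.natAbs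
      generalize Nat.gcd d.natAbs m.natAbs = G at hi' hj'
      have hG0 : G ≠ 0 := by
        rintro rfl
        rw [mul_zero] at hi'
        omega
      have hi2 : 2 ≤ i' := by
        by_contra hlt
        have : i' = 0 ∨ i' = 1 := by omega
        rcases this with h | h
        · rw [h, zero_mul] at hi'; omega
        · rw [h, one_mul] at hi'
          apply hdiv
          rw [← Int.natAbs_dvd_natAbs]
          exact ⟨j', by rw [hj', hi', mul_comm]⟩
      have hdE : d = (G : ℤ) * i' := by
        have : (d.natAbs : ℤ) = ((i' * G : ℕ) : ℤ) := by rw [hi']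
        push_cast at this
        rw [abs_of_pos hd0] at this
        rw [this]; ring
      have hmE : m = (G : ℤ) * j' := by
        have : (m.natAbs : ℤ) = ((j' * G : ℕ) : ℤ) := by rw [hj']
        push_cast at this
        rw [abs_of_pos hm0] at this
        rw [this]; ring
      have hGz : (G : ℤ) ≠ 0 := by exact_mod_cast hG0
      -- bottom
      have h9 : l * i' = e * j' := by
        apply mul_left_cancel₀ hGz
        rw [hdE, hmE] at hrat
        linear_combination hrat
      have hcopZ : IsCoprime (i' : ℤ) (j' : ℤ) := Nat.isCoprime_iff_coprime.2 hcop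
      obtain ⟨κ, hκ⟩ : (i' : ℤ) ∣ e := by
        apply hcopZ.dvd_of_dvd_mul_right
        exact ⟨l, by rw [← h9]; ring⟩
      have hi'z : (i' : ℤ) ≠ 0 := by
        have : i' ≠ 0 := by omega
        exact_mod_cast this
      have hlE : l = κ * j' := by
        apply mul_left_cancel₀ hi'z
        rw [hκ] at h9
        linear_combination h9
      have hκ0 : κ ≠ 0 := by
        rintro rfl
        rw [mul_zero] at hκ
        omega
      refine ⟨i', hi2, ?_, ?_⟩
      · exact extract f g d m hd hm ha hb hbk G hGz i' j' hi2 hcop hdE hmE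
      · exact extract f g e l he hl ha2 hb2 hbk2 κ hκ0 i' j' hi2 hcop (by rw [hκ]; ring) hlE

/-- final form -/
theorem final (f g : R) (hf : f ∈ AA) (hg : g ∈ AA) (c : ℂ) (hc : c ≠ 0) (hJ : Jac f g = C c) :
    ∃ d e : ℤ, 0 < d ∧ e < 0 ∧ (∀ m ∈ f.support, e ≤ (m 0 : ℤ) - 2 * m 1 ∧
      (m 0 : ℤ) - 2 * m 1 ≤ d) ∧ cmp d f ≠ 0 ∧ cmp e f ≠ 0 ∧
      ∃ r : ℕ, 2 ≤ r ∧ (∃ h : R, cmp d f = h ^ r) ∧ (∃ h : R, cmp e f = h ^ r) := by
  have hf' : f - C (coeff 0 f) ∈ AA := AA.sub_mem hf (AA_C _)
  have hg' : g - C (coeff 0 g) ∈ AA := AA.sub_mem hg (AA_C _)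
  have hf0 : coeff 0 (f - C (coeff 0 f)) = 0 := by simp
  have hg0 : coeff 0 (g - C (coeff 0 g)) = 0 := by simp
  have hJ' : Jac (f - C (coeff 0 f)) (g - C (coeff 0 g)) = C c := by
    rw [← hJ]; unfold Jac; simp
  have hW := W_eq f
  obtain ⟨⟨w1, hw1, hw10⟩, ⟨w2, hw2, hw20⟩, -⟩ := main f g hf hg c hc hJ
  obtain ⟨d, hd, hdmax⟩ := Finset.exists_max_image (W f) id ⟨w1, hw1⟩
  obtain ⟨e, he, hemin⟩ := Finset.exists_min_image (W f) id ⟨w1, hw1⟩
  simp only [id] at hdmax hemin
  have hd0 : 0 < d := lt_of_lt_of_le hw10 (hdmax _ hw1)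
  have he0 : e < 0 := lt_of_le_of_lt (hemin _ hw2) hw20
  obtain ⟨N, hN⟩ : ∃ N : ℕ, ∀ j ∈ (Phi (g - C (coeff 0 g))).coeff.support, j ≤ (N : ℤ) := by
    obtain ⟨B, hB⟩ := (Phi (g - C (coeff 0 g))).coeff.support.bddAbove
    refine ⟨B.toNat, fun j hj => ?_⟩
    have := hB hj
    omega
  have hcn : ∀ w ∈ W f, cmp w f ≠ 0 := by
    intro w hw h
    obtain ⟨m, hm, hmd⟩ := Finset.mem_image.1 hw
    have h1 := coeff_cmp w f m
    rw [h, if_pos hmd, coeff_zero] at h1
    exact (mem_support_iff.1 (Finset.mem_erase.1 hm).2) h1.symm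
  refine ⟨d, e, hd0, he0, fun m hm => ?_, hcn d hd, hcn e he, ?_⟩
  · by_cases h : m = 0
    · subst h; simp; exact ⟨he0.le, hd0.le⟩
    · exact ⟨hemin _ (Finset.mem_image_of_mem _ (Finset.mem_erase.2 ⟨h, hm⟩)),
        hdmax _ (Finset.mem_image_of_mem _ (Finset.mem_erase.2 ⟨h, hm⟩))⟩
  · rw [hW] at hd hdmax he hemin
    have := both_power _ hf' hf0 c hc d e hd hd0 hdmax he he0 hemin N _ hg' hg0 hJ' hN
    rwa [cmp_sub_C d hd0.ne', cmp_sub_C e he0.ne] at this

end Pool.Agent.H193R6.DG
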