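import Pool.Agent.H193R6.DG.Base

set_option autoImplicit false
open MvPolynomial

namespace Pool.Agent.H193R6.DG

structure Nice (p : ℤ →₀ Polynomial ℂ) : Prop where
  deg : ∀ n, p n ≠ 0 → 1 ≤ (p n).natDegree
  neg : ∀ n ≤ 0, (p n).coeff 0 = 0

def Eqn (p q : ℤ →₀ Polynomial ℂ) (c : ℂ) : Prop :=
  ∀ n : ℤ, ∑ i ∈ p.support, bk i (p i) (n - i) (q (n - i))
    = if n = -1 then Polynomial.C c else 0

lemma bk_zero_right (i : ℤ) (a : Polynomial ℂ) (j : ℤ) : bk i a j 0 = 0 := by
  simp [bk]

lemma bk_coeff (i j : ℤ) (a b : Polynomial ℂ) (A B : ℕ) (hA : a.natDegree ≤ A)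
    (hB : b.natDegree ≤ B) (hA1 : 1 ≤ A) (hB1 : 1 ≤ B) :
    (bk i a j b).coeff (A + B - 1) = ((i * B - j * A : ℤ) : ℂ) * (a.coeff A * b.coeff B) := by
  obtain ⟨A', rfl⟩ : ∃ A', A = A' + 1 := ⟨A - 1, by omega⟩
  obtain ⟨B', rfl⟩ : ∃ B', B = B' + 1 := ⟨B - 1, by omega⟩
  have e1 : (a * Polynomial.derivative b).coeff (A' + 1 + B')
      = a.coeff (A' + 1) * (b.coeff (B' + 1) * (B' + 1)) := by
    rw [Polynomial.coeff_mul_add_eq_of_natDegree_le hA
      ((Polynomial.natDegree_derivative_le b).trans (by omega)), Polynomial.coeff_derivative]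
  have e2 : (Polynomial.derivative a * b).coeff (A' + (B' + 1))
      = (a.coeff (A' + 1) * (A' + 1)) * b.coeff (B' + 1) := by
    rw [Polynomial.coeff_mul_add_eq_of_natDegree_le
      ((Polynomial.natDegree_derivative_le a).trans (by omega)) hB, Polynomial.coeff_derivative]
  have h1 : A' + 1 + (B' + 1) - 1 = A' + 1 + B' := by omega
  have h2 : A' + 1 + B' = A' + (B' + 1) := by omega
  have c1 : (i : Polynomial ℂ) = Polynomial.C (i : ℂ) := (map_intCast (Polynomial.C : ℂ →+* Polynomial ℂ) i).symm
  have c2 : (j : Polynomial ℂ) = Polynomial.C (j : ℂ) := (map_intCast (Polynomial.C : ℂ →+* Polynomial ℂ) j).symm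
  rw [bk, c1, c2, Polynomial.coeff_sub, Polynomial.coeff_C_mul, Polynomial.coeff_C_mul, h1, e1,
    h2, e2]
  push_cast
  ring

lemma bk_coeff_zero (i j : ℤ) (a b : Polynomial ℂ) (K : ℕ) (ha : 1 ≤ a.natDegree)
    (h : a.natDegree + b.natDegree ≤ K) : (bk i a j b).coeff K = 0 := by
  have := bk_coeff i j a b (K - b.natDegree) (b.natDegree + 1) (by omega) (by omega) (by omega)
    (by omega)
  rw [show K - b.natDegree + (b.natDegree + 1) - 1 = K by omega] at this
  rw [this, Polynomial.coeff_eq_zero_of_natDegree_lt (p := b) (by omega)]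
  ring

lemma bk_top (i j : ℤ) (a b : Polynomial ℂ) (ha : 1 ≤ a.natDegree) (hb : 1 ≤ b.natDegree)
    (h : (bk i a j b).coeff (a.natDegree + b.natDegree - 1) = 0) :
    i * b.natDegree = j * a.natDegree := by
  rw [bk_coeff _ _ _ _ _ _ le_rfl le_rfl ha hb] at h
  have ha0 : a ≠ 0 := by rintro rfl; simp at ha
  have hb0 : b ≠ 0 := by rintro rfl; simp at hb
  rcases mul_eq_zero.1 h with h | h
  · have : (i * b.natDegree - j * a.natDegree : ℤ) = 0 := by exact_mod_cast h
    linarith
  · exact absurd h (mul_ne_zero (Polynomial.leadingCoeff_ne_zero.2 ha0)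
      (Polynomial.leadingCoeff_ne_zero.2 hb0))

lemma rhs_zero (k : ℤ) (c : ℂ) (K : ℕ) (hK : 1 ≤ K) :
    (if k = -1 then Polynomial.C c else 0 : Polynomial ℂ).coeff K = 0 := by
  split_ifs
  · rw [Polynomial.coeff_C, if_neg (by omega)]
  · simp

variable {p q : ℤ →₀ Polynomial ℂ} {c : ℂ}

lemma single_term (hE : Eqn p q c) (hp : Nice p) (hq : Nice q) (d m : ℤ)
    (hd : d ∈ p.support) (hm : m ∈ q.support)
    (h : ∀ i ∈ p.support, i ≠ d → d + m - i ∉ q.support) :
    d * (q m).natDegree = m * (p d).natDegree := by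
  have h1 := hp.deg d (Finsupp.mem_support_iff.1 hd)
  have h2 := hq.deg m (Finsupp.mem_support_iff.1 hm)
  have e := hE (d + m)
  rw [Finset.sum_eq_single d] at e
  · rw [show d + m - d = m by ring] at e
    apply bk_top _ _ _ _ h1 h2
    rw [e]
    exact rhs_zero _ _ _ (by omega)
  · intro i hi hid
    rw [Finsupp.notMem_support_iff.1 (h i hi hid), bk_zero_right]
  · exact fun h => absurd hd h

lemma ne_q (hE : Eqn p q c) (hc : c ≠ 0) : q.support.Nonempty := by
  by_contra h
  rw [Finset.not_nonempty_iff_eq_empty, Finsupp.support_eq_empty] at h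
  have := hE (-1)
  rw [h] at this
  simp only [Finsupp.coe_zero, Pi.zero_apply, bk_zero_right, Finset.sum_const_zero, if_true] at this
  exact hc (Polynomial.C_eq_zero.1 this.symm)

lemma ne_p (hE : Eqn p q c) (hc : c ≠ 0) : p.support.Nonempty := by
  by_contra h
  rw [Finset.not_nonempty_iff_eq_empty] at h
  have := hE (-1)
  rw [h] at this
  simp only [Finset.sum_empty, if_true] at this
  exact hc (Polynomial.C_eq_zero.1 this.symm)

theorem T (hE : Eqn p q c) (hp : Nice p) (hq : Nice q) (hc : c ≠ 0) (d : ℤ)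
    (hd : d ∈ p.support) (hd0 : 0 < d) : ∃ m ∈ q.support, 0 < m := by
  by_contra hcon
  push Not at hcon
  have hpn : p.support.Nonempty := ⟨d, hd⟩
  have hqn := ne_q hE hc
  obtain ⟨D, hDm, hDmax⟩ := Finset.exists_max_image p.support id hpn
  obtain ⟨m, hmm, hmmax⟩ := Finset.exists_max_image q.support id hqn
  simp only [id] at hDmax hmmax
  have hD : 0 < D := lt_of_lt_of_le hd0 (hDmax d hd)
  have hm : m ≤ 0 := hcon _ hmm
  have h := single_term hE hp hq D m hDm hmm (fun i hi hne hmem => by
    have a1 := hDmax i hi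
    have a2 := hmmax _ hmem
    omega)
  have h1 := hp.deg D (Finsupp.mem_support_iff.1 hDm)
  have h2 := hq.deg m (Finsupp.mem_support_iff.1 hmm)
  have h3 : (0 : ℤ) < D * (q m).natDegree := by
    have : (0 : ℤ) < (q m).natDegree := by exact_mod_cast h2
    positivity
  have h4 : m * (p D).natDegree ≤ (0 : ℤ) :=
    mul_nonpos_of_nonpos_of_nonneg hm (by positivity)
  linarith

theorem posW (hE : Eqn p q c) (hE' : Eqn q p (-c)) (hp : Nice p) (hq : Nice q) (hc : c ≠ 0) :
    ∃ d ∈ p.support, 0 < d := by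
  by_contra hcon
  push Not at hcon
  have hq0 : ∀ j ∈ q.support, j ≤ 0 := by
    intro j hj
    by_contra h
    push Not at h
    obtain ⟨d, hd, hd0⟩ := T hE' hq hp (neg_ne_zero.2 hc) j hj h
    exact absurd hd0 (not_lt.2 (hcon d hd))
  have e := congrArg (fun z => z.coeff 0) (hE (-1))
  simp only [if_true, Polynomial.coeff_C_zero, Polynomial.finsetSum_coeff] at e
  apply hc
  rw [← e]
  apply Finset.sum_eq_zero
  intro i hi
  have hi0 := hcon i hi
  have p0 : (p i).coeff 0 = 0 := hp.neg i hi0
  have q0 : (q (-1 - i)).coeff 0 = 0 := by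
    by_cases hj : -1 - i ∈ q.support
    · exact hq.neg _ (hq0 _ hj)
    · rw [Finsupp.notMem_support_iff.1 hj]; simp
  rw [bk, Polynomial.coeff_sub, Polynomial.mul_coeff_zero, Polynomial.mul_coeff_zero,
    Polynomial.mul_coeff_zero, Polynomial.mul_coeff_zero, p0, q0]
  ring

theorem negW (hE : Eqn p q c) (hp : Nice p) (hq : Nice q) (hc : c ≠ 0) :
    ∃ e ∈ p.support, e < 0 := by
  by_contra hcon
  push Not at hcon
  have hpn := ne_p hE hc
  have hqn := ne_q hE hc
  obtain ⟨e, hem, hemin⟩ := Finset.exists_min_image p.support id hpn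
  obtain ⟨l, hlm, hlmin⟩ := Finset.exists_min_image q.support id hqn
  simp only [id] at hemin hlmin
  have he : 0 ≤ e := hcon e hem
  have hl : l < 0 := by
    by_contra h
    push Not at h
    have E := hE (-1)
    rw [Finset.sum_eq_zero] at E
    · simp only [if_true] at E
      exact hc (Polynomial.C_eq_zero.1 E.symm)
    · intro i hi
      have : -1 - i ∉ q.support := fun hmem => by
        have a1 := hlmin _ hmem
        have a2 := hcon i hi
        omega
      rw [Finsupp.notMem_support_iff.1 this, bk_zero_right]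
  have h := single_term hE hp hq e l hem hlm (fun i hi hne hmem => by
    have a1 := hemin i hi
    have a2 := hlmin _ hmem
    omega)
  have h1 := hp.deg e (Finsupp.mem_support_iff.1 hem)
  have h3 : (0 : ℤ) ≤ e * (q l).natDegree := by positivity
  have h4 : l * (p e).natDegree < (0 : ℤ) :=
    mul_neg_of_neg_of_pos hl (by exact_mod_cast h1)
  linarith

theorem two (hE : Eqn p q c) (hp : Nice p) (hq : Nice q) (hc : c ≠ 0) (d e : ℤ)
    (hd0 : 0 < d) (he0 : e < 0) (hsupp : p.support = {d, e}) :
    ∃ t : ℕ, 1 ≤ t ∧ (d * t) ∈ q.support ∧ (∀ j ∈ q.support, j ≤ d * t) ∧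
      d * (q (d * t)).natDegree = d * t * (p d).natDegree ∧
      bk d (p d) (d * t) (q (d * t)) = 0 := by
  have hde : d ≠ e := by omega
  have hd : d ∈ p.support := by rw [hsupp]; simp
  have he : e ∈ p.support := by rw [hsupp]; simp
  have hn := hp.deg d (Finsupp.mem_support_iff.1 hd)
  have hn' := hp.deg e (Finsupp.mem_support_iff.1 he)
  have pair : ∀ k : ℤ, bk d (p d) (k - d) (q (k - d)) + bk e (p e) (k - e) (q (k - e))
      = if k = -1 then Polynomial.C c else 0 := by
    intro k
    have := hE k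
    rwa [hsupp, Finset.sum_pair hde] at this
  generalize hnn : (p d).natDegree = n at hn
  generalize hnn' : (p e).natDegree = n' at hn'
  set δ : ℤ := d - e with hδ
  have hδ0 : 0 < δ := by omega
  set Y0 : ℤ := n' * d - n * e with hY0
  have hY : 0 < Y0 := by
    have a1 : (0 : ℤ) < n' * d := by
      have : (0 : ℤ) < n' := by exact_mod_cast hn'
      positivity
    have a2 : (n : ℤ) * e < 0 := mul_neg_of_pos_of_neg (by exact_mod_cast hn) he0
    omega
  have hqn := ne_q hE hc
  let U : ℤ → ℤ := fun j => δ * (q j).natDegree - ((n : ℤ) - n') * j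
  obtain ⟨j0, hj0, hj0max⟩ := Finset.exists_max_image q.support U hqn
  set M : ℤ := U j0 with hM
  let J := q.support.filter (fun j => U j = M)
  have hJmem : ∀ j, j ∈ J ↔ j ∈ q.support ∧ U j = M := fun j => by simp [J]
  have hJn : J.Nonempty := ⟨j0, (hJmem _).2 ⟨hj0, rfl⟩⟩
  obtain ⟨j1, hj1, hj1max⟩ := Finset.exists_max_image J id hJn
  obtain ⟨j2, hj2, hj2min⟩ := Finset.exists_min_image J id hJn
  simp only [id] at hj1max hj2min
  -- top of J
  have topJ : d * M = j1 * Y0 := by
    obtain ⟨hj1q, hj1U⟩ := (hJmem _).1 hj1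
    have hD := hq.deg j1 (Finsupp.mem_support_iff.1 hj1q)
    generalize hDD : (q j1).natDegree = D at hD
    have hU1 : M = δ * D - ((n : ℤ) - n') * j1 := by rw [← hj1U, ← hDD]
    have e1 := congrArg (fun z => z.coeff (n + D - 1)) (pair (d + j1))
    rw [show d + j1 - d = j1 by ring, show d + j1 - e = j1 + δ by rw [hδ]; ring,
      Polynomial.coeff_add, rhs_zero _ _ _ (by omega)] at e1
    have e2 : (bk e (p e) (j1 + δ) (q (j1 + δ))).coeff (n + D - 1) = 0 := by
      by_cases hmem : j1 + δ ∈ q.support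
      · apply bk_coeff_zero _ _ _ _ _ (by rw [hnn']; exact hn')
        rw [hnn']
        have a1 : U (j1 + δ) ≤ M := hj0max _ hmem
        have a2 : U (j1 + δ) ≠ M := fun h => by
          have := hj1max _ ((hJmem _).2 ⟨hmem, h⟩)
          omega
        have a3 : U (j1 + δ) < M := lt_of_le_of_ne a1 a2
        have a4 : δ * ((n' : ℤ) + (q (j1 + δ)).natDegree - n - D) < 0 := by
          have : U (j1 + δ) = δ * (q (j1 + δ)).natDegree - ((n : ℤ) - n') * (j1 + δ) := rfl
          rw [this, hU1] at a3
          linarith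
        have a5 : (n' : ℤ) + (q (j1 + δ)).natDegree - n - D < 0 := by
          by_contra hh
          push Not at hh
          exact absurd a4 (not_lt.2 (mul_nonneg hδ0.le hh))
        omega
      · rw [Finsupp.notMem_support_iff.1 hmem, bk_zero_right, Polynomial.coeff_zero]
    rw [e2, add_zero] at e1
    have e3 := bk_top d j1 (p d) (q j1) (by rw [hnn]; exact hn) (by rw [hDD]; exact hD)
      (by rw [hnn, hDD]; exact e1)
    rw [hnn, hDD] at e3
    rw [hU1, hY0, hδ]
    rw [hδ] at *
    linear_combination (d - e) * e3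
  -- chain
  have step : ∀ j : ℤ, j + δ ∈ J → e * M ≠ (j + δ) * Y0 → j ∈ J := by
    intro j hjδ hne
    by_contra hj
    obtain ⟨hjq, hjU⟩ := (hJmem _).1 hjδ
    have hD := hq.deg _ (Finsupp.mem_support_iff.1 hjq)
    generalize hDD : (q (j + δ)).natDegree = D at hD
    have hU1 : M = δ * D - ((n : ℤ) - n') * (j + δ) := by rw [← hjU, ← hDD]
    have e1 := congrArg (fun z => z.coeff (n' + D - 1)) (pair (d + j))
    rw [show d + j - d = j by ring, show d + j - e = j + δ by rw [hδ]; ring,
      Polynomial.coeff_add, rhs_zero _ _ _ (by omega)] at e1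
    have e2 : (bk d (p d) j (q j)).coeff (n' + D - 1) = 0 := by
      by_cases hmem : j ∈ q.support
      · apply bk_coeff_zero _ _ _ _ _ (by rw [hnn]; exact hn)
        rw [hnn]
        have a1 : U j ≤ M := hj0max _ hmem
        have a2 : U j ≠ M := fun h => hj ((hJmem _).2 ⟨hmem, h⟩)
        have a3 : U j < M := lt_of_le_of_ne a1 a2
        have a4 : δ * ((n : ℤ) + (q j).natDegree - n' - D) < 0 := by
          have : U j = δ * (q j).natDegree - ((n : ℤ) - n') * j := rfl
          rw [this, hU1] at a3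
          linarith
        have a5 : (n : ℤ) + (q j).natDegree - n' - D < 0 := by
          by_contra hh
          push Not at hh
          exact absurd a4 (not_lt.2 (mul_nonneg hδ0.le hh))
        omega
      · rw [Finsupp.notMem_support_iff.1 hmem, bk_zero_right, Polynomial.coeff_zero]
    rw [e2, zero_add] at e1
    have e3 := bk_top e (j + δ) (p e) (q (j + δ)) (by rw [hnn']; exact hn')
      (by rw [hDD]; exact hD) (by rw [hnn', hDD]; exact e1)
    rw [hnn', hDD] at e3
    apply hne
    rw [hU1, hY0]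
    have hdd : d = δ + e := by rw [hδ]; ring
    rw [hdd]
    linear_combination δ * e3
  have chain : ∀ t : ℕ, (∃ t' : ℕ, M = t' * Y0) ∨ j1 - t * δ ∈ J := by
    intro t
    induction t with
    | zero => right; simpa using hj1
    | succ t ih =>
      rcases ih with h | h
      · exact Or.inl h
      · by_cases hs : e * M = (j1 - t * δ) * Y0
        · left
          refine ⟨t, ?_⟩
          have h5 : δ * (M - t * Y0) = 0 := by
            have hdd : e = d - δ := by rw [hδ]; ring
            rw [hdd] at hs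
            linear_combination topJ - hs
          rcases mul_eq_zero.1 h5 with h6 | h6
          · omega
          · linarith
        · right
          have h7 : j1 - ((t + 1 : ℕ) : ℤ) * δ + δ = j1 - t * δ := by push_cast; ring
          apply step
          · rw [h7]; exact h
          · rw [h7]; exact hs
  obtain ⟨t, ht⟩ : ∃ t : ℕ, M = t * Y0 := by
    rcases chain ((j1 - j2).toNat + 1) with h | h
    · exact h
    · exfalso
      have h1 := hj2min _ h
      have h2 := hj2min _ hj1
      have h3 : (((j1 - j2).toNat + 1 : ℕ) : ℤ) = j1 - j2 + 1 := by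
        push_cast
        omega
      rw [h3] at h1
      nlinarith
  have hj1t : j1 = d * t := by
    rw [ht] at topJ
    have : (d * t - j1) * Y0 = 0 := by linear_combination topJ
    rcases mul_eq_zero.1 this with h | h
    · omega
    · omega
  obtain ⟨hj1q, hj1U⟩ := (hJmem _).1 hj1
  -- top of q
  obtain ⟨m, hmm, hmmax⟩ := Finset.exists_max_image q.support id hqn
  simp only [id] at hmmax
  have hmj : j1 ≤ m := hmmax _ hj1q
  have hdt0 : 0 ≤ d * (t : ℤ) := by positivity
  have hm0 : 0 ≤ m := by omega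
  have hzero : bk d (p d) m (q m) = 0 := by
    have e1 := pair (d + m)
    rw [show d + m - d = m by ring, show d + m - e = m + δ by rw [hδ]; ring,
      if_neg (by omega)] at e1
    have : m + δ ∉ q.support := fun h => by
      have := hmmax _ h
      omega
    rwa [Finsupp.notMem_support_iff.1 this, bk_zero_right, add_zero] at e1
  have hDm := hq.deg m (Finsupp.mem_support_iff.1 hmm)
  have htop := bk_top d m (p d) (q m) (by rw [hnn]; exact hn) hDm (by rw [hzero]; simp)
  rw [hnn] at htop
  have hle : m ≤ d * t := by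
    have a1 : U m ≤ M := hj0max _ hmm
    have a2 : U m = δ * (q m).natDegree - ((n : ℤ) - n') * m := rfl
    have a3 : d * U m = m * Y0 := by
      rw [a2, hY0, hδ]
      linear_combination (d - e) * htop
    have a4 : d * U m ≤ d * M := mul_le_mul_of_nonneg_left a1 hd0.le
    rw [a3, ht] at a4
    have a5 : m * Y0 ≤ (d * t) * Y0 := by linarith
    exact le_of_mul_le_mul_right a5 hY
  have hmt : m = d * t := by omega
  refine ⟨t, ?_, ?_, ?_, ?_, ?_⟩
  · by_contra h
    have h0 : t = 0 := by omega
    subst h0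
    have : m = 0 := by rw [hmt]; simp
    rw [this] at htop
    rw [this] at hDm
    have h9 : (0 : ℤ) < d * ((q 0).natDegree : ℤ) := by
      have : (0 : ℤ) < (q 0).natDegree := by exact_mod_cast hDm
      positivity
    rw [htop] at h9
    simp at h9
  · rw [← hmt]; exact hmm
  · rw [← hmt]; exact hmmax
  · rw [← hmt]; exact htop
  · rw [← hmt]; exact hzero

end Pool.Agent.H193R6.DG
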