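import Pool.Agent.H193R6.DG.Main

set_option autoImplicit false
open MvPolynomial

namespace Pool.Agent.H193R6.DG

/-- the component of weight `n` -/
noncomputable def cmp (n : ℤ) (f : R) : R := weightedHomogeneousComponent (![1, -2] : Fin 2 → ℤ) n f

lemma weight_eq (m : Fin 2 →₀ ℕ) : Finsupp.weight (![1, -2] : Fin 2 → ℤ) m = (m 0 : ℤ) - 2 * m 1 := by
  rw [Finsupp.weight_apply, Finsupp.sum_fintype _ _ (by simp), Fin.sum_univ_two]
  simp
  ring

lemma coeff_cmp (n : ℤ) (f : R) (m : Fin 2 →₀ ℕ) :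
    coeff m (cmp n f) = if (m 0 : ℤ) - 2 * m 1 = n then coeff m f else 0 := by
  rw [cmp, coeff_weightedHomogeneousComponent, weight_eq]

lemma Phi_inj {f g : R} (h : Phi f = Phi g) : f = g := by
  ext m
  have h1 := Phi_coeff f ((m 0 : ℤ) - 2 * m 1) (m 1)
  have h2 := Phi_coeff g ((m 0 : ℤ) - 2 * m 1) (m 1)
  rw [h] at h1
  rw [h1, if_pos (by omega), if_pos (by omega)] at h2
  have h3 : ((m 0 : ℤ) - 2 * m 1 + 2 * (m 1 : ℕ)).toNat = m 0 := by omega
  rw [h3, ← eq_mk] at h2
  exact h2

lemma Phi_cmp (n : ℤ) (f : R) : Phi (cmp n f) = AddMonoidAlgebra.single n ((Phi f).coeff n) := by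
  ext k j
  rw [Phi_coeff, AddMonoidAlgebra.coeff_single, Finsupp.single_apply]
  by_cases hk : n = k
  · subst hk
    rw [if_pos rfl, Phi_coeff]
    split_ifs with h
    · rw [coeff_cmp, if_pos]
      simp only [mk_zero, mk_one]
      omega
    · rfl
  · rw [if_neg hk, Polynomial.coeff_zero]
    split_ifs with h
    · rw [coeff_cmp, if_neg]
      simp only [mk_zero, mk_one]
      omega
    · rfl

lemma pow_rel (i j : ℕ) (a b : Polynomial ℂ) (ha : 1 ≤ a.natDegree) (hb : 1 ≤ b.natDegree)
    (hi : 1 ≤ i)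
    (h : (i : Polynomial ℂ) * (a * Polynomial.derivative b)
      = (j : Polynomial ℂ) * (Polynomial.derivative a * b)) :
    ∃ c' : ℂ, b ^ i = Polynomial.C c' * a ^ j := by
  have hb0 : b ≠ 0 := by rintro rfl; simp at hb
  have hz : bk i a j b = 0 := by
    rw [bk]; push_cast; rw [h, sub_self]
  have h1 := bk_top i j a b ha hb (by rw [hz]; simp)
  apply ode a (b ^ i) j ha
  · rw [Polynomial.natDegree_pow]
    exact_mod_cast h1
  · exact pow_ne_zero _ hb0
  · obtain ⟨i', rfl⟩ : ∃ i', i = i' + 1 := ⟨i - 1, by omega⟩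
    rw [Polynomial.derivative_pow, Nat.add_sub_cancel, Polynomial.C_eq_natCast, pow_succ]
    linear_combination b ^ i' * h

lemma root_lemma (P Q : R) (i j : ℕ) (hi : 2 ≤ i) (hij : Nat.Coprime i j) (hP : P ≠ 0) (c : ℂ)
    (hc : c ≠ 0) (h : Q ^ i = C c * P ^ j) : ∃ h : R, P = h ^ i := by
  obtain ⟨x, hx⟩ : ∃ x, j * x % i = 1 := by
    obtain ⟨x, -, hx⟩ := Nat.exists_mul_mod_eq_one_of_coprime hij.symm (by omega)
    exact ⟨x, hx⟩
  obtain ⟨y, hy⟩ : ∃ y, j * x = y * i + 1 := ⟨j * x / i, by
    have := Nat.div_add_mod (j * x) i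
    rw [hx] at this
    linarith [mul_comm i (j * x / i)]⟩
  have h1 : (Q ^ x) ^ i = C (c ^ x) * P * (P ^ y) ^ i := by
    rw [← pow_mul, mul_comm x i, pow_mul, h, mul_pow, ← pow_mul, hy, pow_succ, pow_mul, C_pow]
    ring
  have h2 : (P ^ y) ^ i ∣ (Q ^ x) ^ i := ⟨C (c ^ x) * P, by rw [h1]; ring⟩
  have h3 : P ^ y ∣ Q ^ x := (IsIntegrallyClosed.pow_dvd_pow_iff (by omega)).1 h2
  obtain ⟨u, hu⟩ := h3
  have hPy : (P ^ y) ^ i ≠ 0 := pow_ne_zero _ (pow_ne_zero _ hP)
  have h4 : u ^ i = C (c ^ x) * P := by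
    apply mul_left_cancel₀ hPy
    rw [← mul_pow, ← hu, h1]
    ring
  obtain ⟨z, hz⟩ := IsAlgClosed.exists_pow_nat_eq ((c ^ x)⁻¹) (show 0 < i by omega)
  refine ⟨C z * u, ?_⟩
  rw [mul_pow, ← C_pow, hz, h4, ← mul_assoc, ← C_mul, inv_mul_cancel₀ (pow_ne_zero _ hc), C_1,
    one_mul]

lemma powE (ε : ℤ) (hε : ε ≠ 0) (F : L) (d : ℤ)
    (hF : ∀ i, ε * d < ε * i → F.coeff i = 0) (t : ℕ) :
    (∀ i, ε * (d * t) < ε * i → (F ^ t).coeff i = 0) ∧
      (F ^ t).coeff (d * t) = (F.coeff d) ^ t := by
  induction t with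
  | zero =>
    simp only [pow_zero, Nat.cast_zero, mul_zero]
    rw [AddMonoidAlgebra.one_def, AddMonoidAlgebra.coeff_single]
    refine ⟨fun i hi => ?_, ?_⟩
    · rw [Finsupp.single_apply, if_neg]
      rintro rfl
      simp at hi
    · simp
  | succ t ih =>
    obtain ⟨ih1, ih2⟩ := ih
    have hsplit : d * ((t + 1 : ℕ) : ℤ) = d * t + d := by push_cast; ring
    rw [hsplit]
    refine ⟨fun i hi => ?_, ?_⟩
    · rw [pow_succ, mulc _ _ _ (Finset.Subset.refl _)]
      apply Finset.sum_eq_zero
      intro k hk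
      by_cases hk1 : ε * (d * t) < ε * k
      · rw [ih1 k hk1, zero_mul]
      · rw [hF (i - k) (by
          push Not at hk1
          have e1 : ε * (i - k) = ε * i - ε * k := by ring
          have e2 : ε * (d * t + d) = ε * (d * t) + ε * d := by ring
          linarith), mul_zero]
    · rw [pow_succ, mulc _ _ _ (Finset.Subset.refl _), Finset.sum_eq_single (d * t)]
      · rw [ih2, show d * t + d - d * t = d by ring, pow_succ]
      · intro k _ hk
        by_cases hk1 : ε * (d * t) < ε * k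
        · rw [ih1 k hk1, zero_mul]
        · rw [hF (d * t + d - k) (by
            push Not at hk1
            have hk2 : ε * k < ε * (d * t) :=
              lt_of_le_of_ne hk1 (fun h => hk (mul_left_cancel₀ hε h))
            have e1 : ε * (d * t + d - k) = ε * (d * t) + ε * d - ε * k := by ring
            linarith), mul_zero]
      · intro h
        rw [Finsupp.notMem_support_iff.1 h, zero_mul]

theorem ext_power (ε : ℤ) (hε : ε = 1 ∨ ε = -1) (f : R) (hf : f ∈ AA) (hf0 : coeff 0 f = 0)
    (c : ℂ) (hc : c ≠ 0) (d : ℤ) (hd : d ∈ (Phi f).coeff.support) (hd0 : 0 < ε * d)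
    (hdmax : ∀ i ∈ (Phi f).coeff.support, ε * i ≤ ε * d) :
    ∀ N : ℕ, ∀ g : R, g ∈ AA → coeff 0 g = 0 → Jac f g = C c →
      (∀ j ∈ (Phi g).coeff.support, ε * j ≤ N) → ∃ r : ℕ, 2 ≤ r ∧ ∃ h : R, cmp d f = h ^ r := by
  have hε0 : ε ≠ 0 := by rcases hε with rfl | rfl <;> decide
  have nf := nice_of_mem f hf hf0
  have hFtop : ∀ i, ε * d < ε * i → (Phi f).coeff i = 0 := by
    intro i hi
    rw [← Finsupp.notMem_support_iff]
    intro h
    have := hdmax i h
    linarith
  intro N
  induction N with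
  | zero =>
    intro g hg hg0 hJ hN
    exfalso
    have ng := nice_of_mem g hg hg0
    have E := eqn_of f g c hJ
    have E' := eqn_of' f g c hJ
    rcases hε with rfl | rfl
    · obtain ⟨j, hj, hj0⟩ := posW E' (by rw [neg_neg]; exact E) ng nf (neg_ne_zero.2 hc)
      have := hN j hj
      push_cast at this
      omega
    · obtain ⟨j, hj, hj0⟩ := negW E' ng nf (neg_ne_zero.2 hc)
      have := hN j hj
      push_cast at this
      omega
  | succ N ih =>
    intro g hg hg0 hJ hN
    have ng := nice_of_mem g hg hg0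
    have E := eqn_of f g c hJ
    have E' := eqn_of' f g c hJ
    have hsign : ∃ j ∈ (Phi g).coeff.support, 0 < ε * j := by
      rcases hε with rfl | rfl
      · obtain ⟨j, hj, hj0⟩ := posW E' (by rw [neg_neg]; exact E) ng nf (neg_ne_zero.2 hc)
        exact ⟨j, hj, by omega⟩
      · obtain ⟨j, hj, hj0⟩ := negW E' ng nf (neg_ne_zero.2 hc)
        exact ⟨j, hj, by omega⟩
    obtain ⟨j, hj, hj0⟩ := hsign
    obtain ⟨m, hm, hmmax⟩ := Finset.exists_max_image (Phi g).coeff.support (fun j => ε * j) ⟨j, hj⟩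
    have hm0 : 0 < ε * m := lt_of_lt_of_le hj0 (hmmax j hj)
    have hbk : bk d ((Phi f).coeff d) m ((Phi g).coeff m) = 0 := by
      have e := E (d + m)
      rw [Finset.sum_eq_single d] at e
      · rw [show d + m - d = m by ring, if_neg (by rcases hε with rfl | rfl <;> omega)] at e
        exact e
      · intro i hi hid
        have hi2 : d + m - i ∉ (Phi g).coeff.support := fun hmem => by
          have a1 := hmmax _ hmem
          have a2 := hdmax i hi
          have a3 : ε * i ≠ ε * d := fun h => hid (mul_left_cancel₀ hε0 h)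
          rcases hε with rfl | rfl <;> omega
        rw [Finsupp.notMem_support_iff.1 hi2, bk_zero_right]
      · exact fun h => absurd hd h
    have ha := nf.deg d (Finsupp.mem_support_iff.1 hd)
    have hb := ng.deg m (Finsupp.mem_support_iff.1 hm)
    have hP0 : cmp d f ≠ 0 := by
      intro h
      have h1 := Phi_cmp d f
      rw [h, map_zero] at h1
      have h2 := congrArg (fun z => z.coeff d) h1
      simp only [AddMonoidAlgebra.coeff_single, Finsupp.single_eq_same, AddMonoidAlgebra.coeff_zero,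
        Finsupp.coe_zero, Pi.zero_apply] at h2
      exact (Finsupp.mem_support_iff.1 hd) h2.symm
    have hd00 : d ≠ 0 := by rintro rfl; simp at hd0
    by_cases hdiv : d ∣ m
    · obtain ⟨k, hk⟩ := hdiv
      have hk0 : 0 < k := by
        rw [hk, ← mul_assoc] at hm0
        exact (mul_pos_iff_of_pos_left hd0).1 hm0
      obtain ⟨t, rfl⟩ : ∃ t : ℕ, k = t := ⟨k.toNat, by omega⟩
      subst hk
      have ht1 : 1 ≤ t := by exact_mod_cast hk0
      have hdC : ((d : ℤ) : Polynomial ℂ) ≠ 0 := by exact_mod_cast hd00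
      have htdeg := bk_top d (d * t) _ _ ha hb (by rw [hbk]; simp)
      obtain ⟨c', hc'⟩ := ode ((Phi f).coeff d) ((Phi g).coeff (d * t)) t ha
        (by
          have : d * ((((Phi g).coeff (d * t)).natDegree : ℤ) - t * ((Phi f).coeff d).natDegree)
              = 0 := by
            linear_combination htdeg
          rcases mul_eq_zero.1 this with h | h
          · exact absurd h hd00
          · have h2 : (((Phi g).coeff (d * t)).natDegree : ℤ)
                = t * ((Phi f).coeff d).natDegree := by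
              linarith
            exact_mod_cast h2)
        (Finsupp.mem_support_iff.1 hm)
        (by
          rw [bk] at hbk
          push_cast at hbk
          apply mul_left_cancel₀ hdC
          linear_combination hbk)
      obtain ⟨tp1, tp2⟩ := powE ε hε0 (Phi f) d hFtop t
      have hPhi : ∀ j : ℤ, (Phi (g - C c' * f ^ t)).coeff j
          = (Phi g).coeff j - Polynomial.C c' * ((Phi f) ^ t).coeff j := by
        intro j
        have hC : Phi (C c' : R) = AddMonoidAlgebra.single (0 : ℤ) (Polynomial.C c') := by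
          rw [← MvPolynomial.monomial_zero', Phi_monomial]
          simp
        rw [map_sub, map_mul, map_pow, hC, AddMonoidAlgebra.coeff_sub, Finsupp.sub_apply]
        congr 1
        rw [mulc _ _ {0} (by
          rw [AddMonoidAlgebra.coeff_single]
          exact Finsupp.support_single_subset), Finset.sum_singleton, sub_zero,
          AddMonoidAlgebra.coeff_single, Finsupp.single_eq_same]
      refine ih (g - C c' * f ^ t) ?_ ?_ ?_ ?_
      · exact AA.sub_mem hg (AA.mul_mem (AA_C c') (AA.pow_mem hf t))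
      · rw [coeff_sub, coeff_C_mul, hg0, ← constantCoeff_eq, map_pow, constantCoeff_eq, hf0,
          zero_pow (by omega)]
        simp
      · rw [← hJ]
        unfold Jac
        obtain ⟨t', rfl⟩ : ∃ t', t = t' + 1 := ⟨t - 1, by omega⟩
        simp only [map_sub, Derivation.leibniz, Derivation.leibniz_pow, pderiv_C, smul_zero,
          smul_eq_mul, add_zero, Nat.add_sub_cancel]
        simp only [nsmul_eq_mul]
        ring
      · intro j hj
        have hj' := Finsupp.mem_support_iff.1 hj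
        rw [hPhi] at hj'
        by_contra hlt
        push Not at hlt
        apply hj'
        rcases lt_trichotomy (ε * (d * t) : ℤ) (ε * j) with h | h | h
        · rw [tp1 j h, mul_zero, sub_zero]
          rw [← Finsupp.notMem_support_iff]
          intro hmem
          exact absurd (hmmax j hmem) (not_le.2 h)
        · have hjj : j = d * t := (mul_left_cancel₀ hε0 h).symm
          rw [hjj, tp2, hc', sub_self]
        · exfalso
          have := hN _ hm
          push_cast at this
          omega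
    · obtain ⟨i', j', hcop, hi', hj'⟩ := Nat.exists_coprime d.natAbs m.natAbs
      generalize Nat.gcd d.natAbs m.natAbs = G at hi' hj'
      have hG0 : G ≠ 0 := by
        rintro rfl
        rw [mul_zero] at hi'
        omega
      have hi2 : 2 ≤ i' := by
        by_contra hlt
        have : i' = 0 ∨ i' = 1 := by omega
        rcases this with h | h
        · rw [h, zero_mul] at hi'; omega
        · rw [h, one_mul] at hi'
          apply hdiv
          rw [← Int.natAbs_dvd_natAbs]
          exact ⟨j', by rw [hj', hi', mul_comm]⟩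
      have hdE : d = ε * ((i' * G : ℕ) : ℤ) := by
        rw [← hi']; rcases hε with rfl | rfl <;> omega
      have hmE : m = ε * ((j' * G : ℕ) : ℤ) := by
        rw [← hj']; rcases hε with rfl | rfl <;> omega
      have hne : ((ε * G : ℤ) : Polynomial ℂ) ≠ 0 := by
        have : (ε * G : ℤ) ≠ 0 := mul_ne_zero hε0 (by exact_mod_cast hG0)
        exact_mod_cast this
      have h1 : (d : Polynomial ℂ) = ((ε * G : ℤ) : Polynomial ℂ) * (i' : Polynomial ℂ) := by
        have := congrArg (Int.cast : ℤ → Polynomial ℂ) hdE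
        rw [this]; push_cast; ring
      have h2 : (m : Polynomial ℂ) = ((ε * G : ℤ) : Polynomial ℂ) * (j' : Polynomial ℂ) := by
        have := congrArg (Int.cast : ℤ → Polynomial ℂ) hmE
        rw [this]; push_cast; ring
      obtain ⟨c', hc'⟩ := pow_rel i' j' ((Phi f).coeff d) ((Phi g).coeff m) ha hb (by omega) (by
        apply mul_left_cancel₀ hne
        rw [bk] at hbk
        linear_combination hbk
          - ((Phi f).coeff d * Polynomial.derivative ((Phi g).coeff m)) * h1
          + (Polynomial.derivative ((Phi f).coeff d) * (Phi g).coeff m) * h2)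
      have hc'0 : c' ≠ 0 := by
        rintro rfl
        rw [map_zero, zero_mul] at hc'
        exact (Finsupp.mem_support_iff.1 hm) (pow_eq_zero_iff (by omega) |>.1 hc')
      have hT : (cmp m g) ^ i' = C c' * (cmp d f) ^ j' := by
        apply Phi_inj
        have hC : Phi (C c' : R) = AddMonoidAlgebra.single (0 : ℤ) (Polynomial.C c') := by
          rw [← MvPolynomial.monomial_zero', Phi_monomial]
          simp
        rw [map_pow, map_mul, map_pow, Phi_cmp, Phi_cmp, hC, AddMonoidAlgebra.single_pow,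
          AddMonoidAlgebra.single_pow, AddMonoidAlgebra.single_mul_single, hc']
        congr 1
        rw [nsmul_eq_mul, nsmul_eq_mul, zero_add]
        calc (i' : ℤ) * m = i' * (ε * ((j' * G : ℕ) : ℤ)) := by rw [← hmE]
          _ = j' * (ε * ((i' * G : ℕ) : ℤ)) := by push_cast; ring
          _ = j' * d := by rw [← hdE]
      exact ⟨i', hi2, root_lemma _ _ i' j' hi2 hcop hP0 c' hc'0 hT⟩

lemma cmp_C (n : ℤ) (hn : n ≠ 0) (a : ℂ) : cmp n (C a) = 0 := by
  ext m
  rw [coeff_cmp, coeff_C, coeff_zero]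
  split_ifs with h1 h2
  · subst h2
    simp at h1
    exact absurd h1.symm hn
  · rfl
  · rfl

lemma cmp_sub_C (n : ℤ) (hn : n ≠ 0) (f : R) (a : ℂ) : cmp n (f - C a) = cmp n f := by
  have : cmp n (f - C a) = cmp n f - cmp n (C a) := by
    unfold cmp; rw [map_sub]
  rw [this, cmp_C n hn, sub_zero]

theorem ends (f g : R) (hf : f ∈ AA) (hg : g ∈ AA) (c : ℂ) (hc : c ≠ 0) (hJ : Jac f g = C c)
    (ε : ℤ) (hε : ε = 1 ∨ ε = -1) :
    ∃ d : ℤ, 0 < ε * d ∧ (∀ m ∈ f.support, ε * ((m 0 : ℤ) - 2 * m 1) ≤ ε * d) ∧ cmp d f ≠ 0 ∧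
      ∃ r : ℕ, 2 ≤ r ∧ ∃ h : R, cmp d f = h ^ r := by
  have hf' : f - C (coeff 0 f) ∈ AA := AA.sub_mem hf (AA_C _)
  have hg' : g - C (coeff 0 g) ∈ AA := AA.sub_mem hg (AA_C _)
  have hf0 : coeff 0 (f - C (coeff 0 f)) = 0 := by simp
  have hg0 : coeff 0 (g - C (coeff 0 g)) = 0 := by simp
  have hJ' : Jac (f - C (coeff 0 f)) (g - C (coeff 0 g)) = C c := by
    rw [← hJ]; unfold Jac; simp
  have hW := W_eq f
  obtain ⟨⟨w1, hw1, hw10⟩, ⟨w2, hw2, hw20⟩, -⟩ := main f g hf hg c hc hJ
  have hsg : ∃ j ∈ W f, 0 < ε * j := by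
    rcases hε with rfl | rfl
    · exact ⟨w1, hw1, by omega⟩
    · exact ⟨w2, hw2, by omega⟩
  obtain ⟨j, hj, hj0⟩ := hsg
  obtain ⟨d, hd, hdmax⟩ := Finset.exists_max_image (W f) (fun j => ε * j) ⟨j, hj⟩
  have hd0 : 0 < ε * d := lt_of_lt_of_le hj0 (hdmax j hj)
  have hd00 : d ≠ 0 := by rintro rfl; simp at hd0
  obtain ⟨N, hN⟩ : ∃ N : ℕ, ∀ j ∈ (Phi (g - C (coeff 0 g))).coeff.support, ε * j ≤ (N : ℤ) := by
    obtain ⟨B, hB⟩ := ((Phi (g - C (coeff 0 g))).coeff.support.image (fun j => ε * j)).bddAbove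
    refine ⟨B.toNat, fun j hj => ?_⟩
    have h5 : ε * j ≤ B := hB (Finset.mem_coe.2 (Finset.mem_image_of_mem (fun j => ε * j) hj))
    have h6 : B ≤ (B.toNat : ℤ) := Int.self_le_toNat B
    exact h5.trans h6
  refine ⟨d, hd0, fun m hm => ?_, ?_, ?_⟩
  · by_cases h : m = 0
    · subst h; simp; exact hd0.le
    · exact hdmax _ (Finset.mem_image_of_mem _ (Finset.mem_erase.2 ⟨h, hm⟩))
  · obtain ⟨m, hm, hmd⟩ := Finset.mem_image.1 hd
    intro h
    have h1 := coeff_cmp d f m
    rw [h, if_pos hmd, coeff_zero] at h1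
    exact (mem_support_iff.1 (Finset.mem_erase.1 hm).2) h1.symm
  · rw [hW] at hd hdmax
    have := ext_power ε hε _ hf' hf0 c hc d hd hd0 hdmax N _ hg' hg0 hJ' hN
    rwa [cmp_sub_C d hd00] at this

end Pool.Agent.H193R6.DG
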