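import Pool.Agent.H193R6.DG.Core

set_option autoImplicit false
open MvPolynomial

namespace Pool.Agent.H193R6.DG

/-- The algebra of the problem. -/
noncomputable def AA : Subalgebra ℂ R :=
  Algebra.adjoin ℂ {(X 1 : R), X 0 * X 1, X 0 ^ 2 * X 1, X 0 ^ 3 * X 1 - X 0}

def DivP (F : L) : Prop := ∀ n : ℤ, (Polynomial.X - Polynomial.C 1 : Polynomial ℂ) ^ n.toNat ∣ F.coeff n

lemma Phi_X1 : Phi (X 1 : R) = AddMonoidAlgebra.single (-2 : ℤ) (Polynomial.X : Polynomial ℂ) := by
  simp [Phi]

lemma Phi_X0 : Phi (X 0 : R) = AddMonoidAlgebra.single (1 : ℤ) (1 : Polynomial ℂ) := by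
  simp [Phi]

lemma divP_single (n : ℤ) (a : Polynomial ℂ)
    (h : (Polynomial.X - Polynomial.C 1 : Polynomial ℂ) ^ n.toNat ∣ a) :
    DivP (AddMonoidAlgebra.single n a) := by
  intro k
  rw [AddMonoidAlgebra.coeff_single, Finsupp.single_apply]
  split_ifs with hk
  · rw [← hk]; exact h
  · exact dvd_zero _

lemma divP_add (F G : L) (hF : DivP F) (hG : DivP G) : DivP (F + G) := by
  intro k
  rw [AddMonoidAlgebra.coeff_add, Finsupp.add_apply]
  exact dvd_add (hF k) (hG k)

lemma divP_mul (F G : L) (hF : DivP F) (hG : DivP G) : DivP (F * G) := by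
  intro k
  rw [mulc F G _ (Finset.Subset.refl _) k]
  refine Finset.dvd_sum fun i _ => ?_
  refine (pow_dvd_pow _ (by omega : k.toNat ≤ i.toNat + (k - i).toNat)).trans ?_
  rw [pow_add]
  exact mul_dvd_mul (hF i) (hG _)

lemma divP_of_mem (f : R) (hf : f ∈ AA) : DivP (Phi f) := by
  unfold AA at hf
  induction hf using Algebra.adjoin_induction with
  | mem x hx =>
    simp only [Set.mem_insert_iff, Set.mem_singleton_iff] at hx
    rcases hx with rfl | rfl | rfl | rfl
    · rw [Phi_X1]; apply divP_single; simp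
    · rw [map_mul, Phi_X0, Phi_X1, AddMonoidAlgebra.single_mul_single]
      apply divP_single; simp
    · rw [map_mul, map_pow, Phi_X0, Phi_X1, AddMonoidAlgebra.single_pow,
        AddMonoidAlgebra.single_mul_single]
      apply divP_single; simp
    · rw [map_sub, map_mul, map_pow, Phi_X0, Phi_X1, AddMonoidAlgebra.single_pow,
        AddMonoidAlgebra.single_mul_single]
      have : (AddMonoidAlgebra.single ((3 : ℕ) • (1 : ℤ) + -2) ((1 : Polynomial ℂ) ^ 3 * Polynomial.X)
          - AddMonoidAlgebra.single (1 : ℤ) (1 : Polynomial ℂ) : L)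
          = AddMonoidAlgebra.single (1 : ℤ) (Polynomial.X - Polynomial.C 1 : Polynomial ℂ) := by
        have h3 : (3 : ℕ) • (1 : ℤ) + -2 = 1 := by norm_num
        rw [h3, ← AddMonoidAlgebra.single_sub]
        simp
      rw [this]
      apply divP_single; simp
  | algebraMap r =>
    have : Phi (algebraMap ℂ R r) = AddMonoidAlgebra.single (0 : ℤ) (Polynomial.C r) := by
      rw [MvPolynomial.algebraMap_eq, ← MvPolynomial.monomial_zero', Phi_monomial]
      simp
    rw [this]
    apply divP_single; simp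
  | add x y _ _ hx hy => rw [map_add]; exact divP_add _ _ hx hy
  | mul x y _ _ hx hy => rw [map_mul]; exact divP_mul _ _ hx hy

lemma nice_of_mem (f : R) (hf : f ∈ AA) (hf0 : coeff 0 f = 0) : Nice (Phi f).coeff := by
  have hneg : ∀ n ≤ 0, ((Phi f).coeff n).coeff 0 = 0 := by
    intro n hn
    rw [Phi_coeff]
    split_ifs with h
    · have : n = 0 := by push_cast at h; omega
      subst this
      have : mk ((0 : ℤ) + 2 * ((0 : ℕ) : ℤ)).toNat 0 = 0 := by simp [mk]
      rw [this]; exact hf0
    · rfl
  refine ⟨fun n hn => ?_, hneg⟩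
  rcases le_or_gt n 0 with h | h
  · by_contra hd
    have h0 : ((Phi f).coeff n).natDegree = 0 := by omega
    rw [Polynomial.eq_C_of_natDegree_eq_zero h0, hneg n h] at hn
    simp at hn
  · have h1 := Polynomial.natDegree_le_of_dvd (divP_of_mem f hf n) hn
    rw [Polynomial.natDegree_pow, Polynomial.natDegree_X_sub_C] at h1
    omega

lemma Jac_swap (f g : R) : Jac g f = - Jac f g := by
  rw [Jac, Jac]; ring

lemma eqn_of (f g : R) (c : ℂ) (hJ : Jac f g = C c) : Eqn (Phi f).coeff (Phi g).coeff c :=
  fun n => key f g c hJ n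

lemma eqn_of' (f g : R) (c : ℂ) (hJ : Jac f g = C c) :
    Eqn (Phi g).coeff (Phi f).coeff (-c) := by
  intro n
  have := key g f (-c) (by rw [Jac_swap, hJ, map_neg]) n
  exact this

lemma topPow (F : L) (d : ℤ) (hF : ∀ i, d < i → F.coeff i = 0) (t : ℕ) :
    (∀ i, d * t < i → (F ^ t).coeff i = 0) ∧ (F ^ t).coeff (d * t) = (F.coeff d) ^ t := by
  induction t with
  | zero =>
    simp only [pow_zero, Nat.cast_zero, mul_zero]
    rw [AddMonoidAlgebra.one_def, AddMonoidAlgebra.coeff_single]
    refine ⟨fun i hi => ?_, ?_⟩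
    · rw [Finsupp.single_apply, if_neg (by omega)]
    · simp
  | succ t ih =>
    obtain ⟨ih1, ih2⟩ := ih
    have hsplit : d * ((t + 1 : ℕ) : ℤ) = d * t + d := by push_cast; ring
    rw [hsplit]
    refine ⟨fun i hi => ?_, ?_⟩
    · rw [pow_succ, mulc _ _ _ (Finset.Subset.refl _)]
      apply Finset.sum_eq_zero
      intro k hk
      by_cases hk1 : d * t < k
      · rw [ih1 k hk1, zero_mul]
      · rw [hF (i - k) (by omega), mul_zero]
    · rw [pow_succ, mulc _ _ _ (Finset.Subset.refl _), Finset.sum_eq_single (d * t)]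
      · rw [ih2, show d * t + d - d * t = d by ring, pow_succ]
      · intro k _ hk
        by_cases hk1 : d * t < k
        · rw [ih1 k hk1, zero_mul]
        · rw [hF (d * t + d - k) (by omega), mul_zero]
      · intro h
        rw [Finsupp.notMem_support_iff.1 h, zero_mul]

lemma ode (a b : Polynomial ℂ) (t : ℕ) (ha : 1 ≤ a.natDegree)
    (hb : b.natDegree = t * a.natDegree) (hb0 : b ≠ 0)
    (h : a * Polynomial.derivative b = (t : Polynomial ℂ) * (Polynomial.derivative a * b)) :
    ∃ c' : ℂ, b = Polynomial.C c' * a ^ t := by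
  have ha0 : a ≠ 0 := by rintro rfl; simp at ha
  have hla : a.leadingCoeff ≠ 0 := Polynomial.leadingCoeff_ne_zero.2 ha0
  have hlb : b.leadingCoeff ≠ 0 := Polynomial.leadingCoeff_ne_zero.2 hb0
  set c' : ℂ := b.leadingCoeff / a.leadingCoeff ^ t with hc'
  have hc0 : c' ≠ 0 := div_ne_zero hlb (pow_ne_zero _ hla)
  refine ⟨c', ?_⟩
  by_contra hne
  set r : Polynomial ℂ := b - Polynomial.C c' * a ^ t with hr
  have hr0 : r ≠ 0 := sub_ne_zero.2 hne
  have hode : a * Polynomial.derivative r = (t : Polynomial ℂ) * (Polynomial.derivative a * r) := by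
    have h2 : a * Polynomial.derivative (a ^ t) = (t : Polynomial ℂ) * (Polynomial.derivative a * a ^ t) := by
      rcases Nat.eq_zero_or_pos t with h0 | h0
      · subst h0; simp
      · rw [Polynomial.derivative_pow, ← Polynomial.C_eq_natCast]
        conv_rhs => rw [show t = (t - 1) + 1 by omega, pow_succ]
        rw [show t - 1 + 1 = t by omega]
        ring
    rw [hr, Polynomial.derivative_sub, Polynomial.derivative_C_mul, mul_sub, h]
    linear_combination (-Polynomial.C c') * h2
  have hdeg : r.degree < b.degree := by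
    apply Polynomial.degree_sub_lt
    · rw [Polynomial.degree_C_mul hc0, Polynomial.degree_pow,
        Polynomial.degree_eq_natDegree hb0, Polynomial.degree_eq_natDegree ha0, hb]
      simp
    · exact hb0
    · rw [Polynomial.leadingCoeff_mul, Polynomial.leadingCoeff_C, Polynomial.leadingCoeff_pow, hc']
      field_simp
  have hdeg' : r.natDegree < t * a.natDegree := by
    rw [← hb]; exact Polynomial.natDegree_lt_natDegree hr0 hdeg
  rcases Nat.eq_zero_or_pos r.natDegree with h0 | h0
  · rw [Polynomial.eq_C_of_natDegree_eq_zero h0, Polynomial.derivative_C, mul_zero] at hode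
    have ht : t ≠ 0 := by rintro rfl; simp at hdeg'
    have hrc : Polynomial.C (r.coeff 0) ≠ 0 := by
      rw [← Polynomial.eq_C_of_natDegree_eq_zero h0]; exact hr0
    have hda : Polynomial.derivative a = 0 := by
      rcases mul_eq_zero.1 hode.symm with h5 | h5
      · exact absurd h5 (by exact_mod_cast ht)
      · rcases mul_eq_zero.1 h5 with h6 | h6
        · exact h6
        · exact absurd h6 hrc
    have := Polynomial.natDegree_eq_zero_of_derivative_eq_zero hda
    omega
  · have hb1 : bk 1 a t r = 0 := by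
      rw [bk]
      push_cast
      rw [one_mul, hode, sub_self]
    have h7 := bk_top 1 t a r ha h0 (by rw [hb1]; simp)
    rw [one_mul] at h7
    have h8 : r.natDegree = t * a.natDegree := by exact_mod_cast h7
    omega

lemma AA_C (a : ℂ) : (C a : R) ∈ AA := AA.algebraMap_mem a

theorem no_two (f : R) (hf : f ∈ AA) (hf0 : coeff 0 f = 0) (c : ℂ) (hc : c ≠ 0) (d e : ℤ)
    (hd0 : 0 < d) (he0 : e < 0) (hsupp : (Phi f).coeff.support = {d, e}) :
    ∀ N : ℕ, ∀ g : R, g ∈ AA → coeff 0 g = 0 → Jac f g = C c →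
      (∀ j ∈ (Phi g).coeff.support, j ≤ N) → False := by
  have hd : d ∈ (Phi f).coeff.support := by rw [hsupp]; simp
  have nf := nice_of_mem f hf hf0
  have hFtop : ∀ i, d < i → (Phi f).coeff i = 0 := by
    intro i hi
    rw [← Finsupp.notMem_support_iff, hsupp]
    simp only [Finset.mem_insert, Finset.mem_singleton, not_or]
    constructor <;> omega
  intro N
  induction N with
  | zero =>
    intro g hg hg0 hJ hN
    obtain ⟨m, hm, hm0⟩ := T (eqn_of f g c hJ) nf (nice_of_mem g hg hg0) hc d hd hd0
    have := hN m hm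
    simp at this
    omega
  | succ N ih =>
    intro g hg hg0 hJ hN
    have ng := nice_of_mem g hg hg0
    obtain ⟨t, ht1, htm, htmax, htdeg, htbk⟩ :=
      two (eqn_of f g c hJ) nf ng hc d e hd0 he0 hsupp
    have hdC : ((d : ℤ) : Polynomial ℂ) ≠ 0 := by
      exact_mod_cast hd0.ne'
    obtain ⟨c', hc'⟩ := ode ((Phi f).coeff d) ((Phi g).coeff (d * t)) t
      (nf.deg d (Finsupp.mem_support_iff.1 hd))
      (by
        have : d * ((((Phi g).coeff (d * t)).natDegree : ℤ) - t * ((Phi f).coeff d).natDegree) = 0 := by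
          linear_combination htdeg
        rcases mul_eq_zero.1 this with h | h
        · omega
        · have h2 : (((Phi g).coeff (d * t)).natDegree : ℤ) = t * ((Phi f).coeff d).natDegree := by
            linarith
          exact_mod_cast h2)
      (Finsupp.mem_support_iff.1 htm)
      (by
        rw [bk] at htbk
        push_cast at htbk
        apply mul_left_cancel₀ hdC
        linear_combination htbk)
    obtain ⟨tp1, tp2⟩ := topPow (Phi f) d hFtop t
    have hPhi : ∀ j : ℤ, (Phi (g - C c' * f ^ t)).coeff j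
        = (Phi g).coeff j - Polynomial.C c' * ((Phi f) ^ t).coeff j := by
      intro j
      have hC : Phi (C c' : R) = AddMonoidAlgebra.single (0 : ℤ) (Polynomial.C c') := by
        rw [← MvPolynomial.monomial_zero', Phi_monomial]
        simp
      rw [map_sub, map_mul, map_pow, hC, AddMonoidAlgebra.coeff_sub, Finsupp.sub_apply]
      congr 1
      rw [mulc _ _ {0} (by
        rw [AddMonoidAlgebra.coeff_single]
        exact Finsupp.support_single_subset), Finset.sum_singleton, sub_zero,
        AddMonoidAlgebra.coeff_single, Finsupp.single_eq_same]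
    refine ih (g - C c' * f ^ t) ?_ ?_ ?_ ?_
    · exact AA.sub_mem hg (AA.mul_mem (AA_C c') (AA.pow_mem hf t))
    · rw [coeff_sub, coeff_C_mul, hg0, ← constantCoeff_eq, map_pow, constantCoeff_eq, hf0,
        zero_pow (by omega)]
      simp
    · rw [← hJ]
      unfold Jac
      obtain ⟨t', rfl⟩ : ∃ t', t = t' + 1 := ⟨t - 1, by omega⟩
      simp only [map_sub, Derivation.leibniz, Derivation.leibniz_pow, pderiv_C, smul_zero,
        smul_eq_mul, add_zero, Nat.add_sub_cancel]
      simp only [nsmul_eq_mul]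
      ring
    · intro j hj
      have hj' := Finsupp.mem_support_iff.1 hj
      rw [hPhi] at hj'
      by_contra hlt
      push Not at hlt
      apply hj'
      rcases lt_trichotomy (d * t : ℤ) j with h | h | h
      · rw [tp1 j h, mul_zero, sub_zero]
        rw [← Finsupp.notMem_support_iff]
        intro hmem
        exact absurd (htmax j hmem) (not_le.2 h)
      · rw [← h, tp2, hc', sub_self]
      · exfalso
        have := hN _ htm
        push_cast at this
        omega

/-- normalized version -/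
theorem main0 (f g : R) (hf : f ∈ AA) (hg : g ∈ AA) (hf0 : coeff 0 f = 0) (hg0 : coeff 0 g = 0)
    (c : ℂ) (hc : c ≠ 0) (hJ : Jac f g = C c) :
    (∃ w ∈ (Phi f).coeff.support, 0 < w) ∧ (∃ w ∈ (Phi f).coeff.support, w < 0) ∧
      3 ≤ (Phi f).coeff.support.card := by
  have nf := nice_of_mem f hf hf0
  have ng := nice_of_mem g hg hg0
  have E := eqn_of f g c hJ
  have E' := eqn_of' f g c hJ
  obtain ⟨d, hd, hd0⟩ := posW E E' nf ng hc
  obtain ⟨e, he, he0⟩ := negW E nf ng hc
  refine ⟨⟨d, hd, hd0⟩, ⟨e, he, he0⟩, ?_⟩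
  by_contra hcard
  push Not at hcard
  have hsub : ({d, e} : Finset ℤ) ⊆ (Phi f).coeff.support := by
    intro x hx
    simp only [Finset.mem_insert, Finset.mem_singleton] at hx
    rcases hx with rfl | rfl
    · exact hd
    · exact he
  have hc2 : ({d, e} : Finset ℤ).card = 2 := Finset.card_pair (by omega)
  have heq : ({d, e} : Finset ℤ) = (Phi f).coeff.support :=
    Finset.eq_of_subset_of_card_le hsub (by omega)
  obtain ⟨N, hN⟩ : ∃ N : ℕ, ∀ j ∈ (Phi g).coeff.support, j ≤ (N : ℤ) := by
    obtain ⟨B, hB⟩ := (Phi g).coeff.support.bddAbove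
    refine ⟨B.toNat, fun j hj => ?_⟩
    have := hB hj
    omega
  exact no_two f hf hf0 c hc d e hd0 he0 heq.symm N g hg hg0 hJ hN

/-- Weights (`X` of weight `1`, `Y` of weight `-2`) of the nonconstant monomials of `f`. -/
noncomputable def W (f : R) : Finset ℤ :=
  (f.support.erase 0).image (fun m => (m 0 : ℤ) - 2 * m 1)

lemma W_eq (f : R) : W f = (Phi (f - C (coeff 0 f))).coeff.support := by
  ext w
  have hsupp : (f - C (coeff 0 f)).support = f.support.erase 0 := by
    ext m
    rw [mem_support_iff, Finset.mem_erase, mem_support_iff, coeff_sub, coeff_C]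
    by_cases h : 0 = m
    · subst h; simp
    · rw [if_neg h, sub_zero]
      exact ⟨fun h1 => ⟨Ne.symm h, h1⟩, fun h1 => h1.2⟩
  rw [W, ← hsupp, Finset.mem_image, Finsupp.mem_support_iff]
  set F := f - C (coeff 0 f)
  constructor
  · rintro ⟨m, hm, rfl⟩ h0
    have h1 := Phi_coeff F ((m 0 : ℤ) - 2 * m 1) (m 1)
    rw [h0, Polynomial.coeff_zero, if_pos (by omega)] at h1
    have h2 : ((m 0 : ℤ) - 2 * m 1 + 2 * (m 1 : ℕ)).toNat = m 0 := by omega
    rw [h2, ← eq_mk] at h1
    exact (mem_support_iff.1 hm) h1.symm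
  · intro hne
    obtain ⟨j, hj⟩ : ∃ j, ((Phi F).coeff w).coeff j ≠ 0 := by
      by_contra h
      push Not at h
      exact hne (Polynomial.ext (by simpa using h))
    rw [Phi_coeff] at hj
    split_ifs at hj with h0
    · refine ⟨mk (w + 2 * j).toNat j, mem_support_iff.2 hj, ?_⟩
      simp only [mk_zero, mk_one]
      omega
    · exact absurd rfl hj

theorem main (f g : R) (hf : f ∈ AA) (hg : g ∈ AA) (c : ℂ) (hc : c ≠ 0) (hJ : Jac f g = C c) :
    (∃ w ∈ W f, 0 < w) ∧ (∃ w ∈ W f, w < 0) ∧ 3 ≤ (W f).card := by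
  rw [W_eq]
  apply main0 _ (g - C (coeff 0 g)) (AA.sub_mem hf (AA_C _)) (AA.sub_mem hg (AA_C _)) (by simp)
    (by simp) c hc
  rw [← hJ]
  unfold Jac
  simp

end Pool.Agent.H193R6.DG
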