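import Pool.Agent.H193R6.DG.Ends

set_option autoImplicit false
open MvPolynomial Topology

namespace Pool.Agent.H193R6.DG

noncomputable def Hs (S : Finset ℤ) (hS : S.Nonempty) (D : ℤ → ℕ) (x : ℝ) : ℝ :=
  S.sup' hS (fun i => x * i + D i)

lemma Hs_le (S : Finset ℤ) (hS : S.Nonempty) (D : ℤ → ℕ) (x : ℝ) (i : ℤ) (hi : i ∈ S) :
    x * i + D i ≤ Hs S hS D x := Finset.le_sup' (fun i : ℤ => x * (i : ℝ) + (D i : ℝ)) hi

lemma Hs_cont (S : Finset ℤ) (hS : S.Nonempty) (D : ℤ → ℕ) : Continuous (Hs S hS D) := by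
  unfold Hs
  apply Continuous.finset_sup'_apply
  intro i _
  fun_prop

/-- the largest maximizer at `x` -/
lemma exists_vertex (S : Finset ℤ) (hS : S.Nonempty) (D : ℤ → ℕ) (x : ℝ) :
    ∃ i ∈ S, x * i + D i = Hs S hS D x ∧ (∀ i' ∈ S, x * i' + D i' = Hs S hS D x → i' ≤ i) ∧
      ∀ᶠ z in 𝓝[>] x, Hs S hS D z = z * i + D i := by
  obtain ⟨i0, hi0, hi0e⟩ := Finset.exists_mem_eq_sup' hS (fun i : ℤ => x * (i : ℝ) + (D i : ℝ))
  obtain ⟨i, hi, himax⟩ := Finset.exists_max_image
    (S.filter (fun i : ℤ => x * (i : ℝ) + (D i : ℝ) = Hs S hS D x)) id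
    ⟨i0, Finset.mem_filter.2 ⟨hi0, hi0e.symm⟩⟩
  obtain ⟨hiS, hie⟩ := Finset.mem_filter.1 hi
  have hmx : ∀ i' ∈ S, x * i' + D i' = Hs S hS D x → i' ≤ i := fun i' hi' h =>
    himax i' (Finset.mem_filter.2 ⟨hi', h⟩)
  refine ⟨i, hiS, hie, hmx, ?_⟩
  have key : ∀ i' ∈ S, ∀ᶠ z in 𝓝[>] x, z * (i' : ℝ) + (D i' : ℝ) ≤ z * i + D i := by
    intro i' hi'
    by_cases h : x * (i' : ℝ) + (D i' : ℝ) = Hs S hS D x
    · have hle : (i' : ℝ) ≤ i := by exact_mod_cast hmx i' hi' h
      filter_upwards [self_mem_nhdsWithin] with z hz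
      have hz' : x < z := hz
      have h1 : (z - x) * (i' : ℝ) ≤ (z - x) * i := mul_le_mul_of_nonneg_left hle (by linarith)
      linarith
    · have hlt : x * (i' : ℝ) + (D i' : ℝ) < x * i + D i := by
        rw [hie]; exact lt_of_le_of_ne (Hs_le S hS D x i' hi') h
      have hc : ∀ᶠ z in 𝓝 x, z * (i' : ℝ) + (D i' : ℝ) < z * i + D i :=
        (ContinuousAt.eventually_lt (by fun_prop) (by fun_prop) hlt)
      exact (hc.filter_mono nhdsWithin_le_nhds).mono fun z hz => hz.le
  have key2 := (Finset.eventually_all S).2 key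
  filter_upwards [key2] with z hz
  apply le_antisymm
  · exact Finset.sup'_le hS _ (fun i' hi' => hz i' hi')
  · exact Hs_le S hS D z i hiS

variable {p q : ℤ →₀ Polynomial ℂ} {c : ℂ}

lemma vertex_rel (hE : Eqn p q c) (hp : Nice p) (hq : Nice q)
    (hpn : p.support.Nonempty) (hqn : q.support.Nonempty) (x : ℝ) (i j : ℤ)
    (hi : i ∈ p.support) (hj : j ∈ q.support)
    (hie : x * i + (p i).natDegree = Hs p.support hpn (fun i => (p i).natDegree) x)
    (him : ∀ i' ∈ p.support, x * i' + (p i').natDegree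
      = Hs p.support hpn (fun i => (p i).natDegree) x → i' ≤ i)
    (hje : x * j + (q j).natDegree = Hs q.support hqn (fun i => (q i).natDegree) x)
    (hjm : ∀ j' ∈ q.support, x * j' + (q j').natDegree
      = Hs q.support hqn (fun i => (q i).natDegree) x → j' ≤ j) :
    i * (q j).natDegree = j * (p i).natDegree := by
  have h1 := hp.deg i (Finsupp.mem_support_iff.1 hi)
  have h2 := hq.deg j (Finsupp.mem_support_iff.1 hj)
  have e := congrArg (fun z => z.coeff ((p i).natDegree + (q j).natDegree - 1)) (hE (i + j))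
  rw [rhs_zero _ _ _ (by omega), Polynomial.finsetSum_coeff, Finset.sum_eq_single i] at e
  · rw [show i + j - i = j by ring] at e
    exact bk_top _ _ _ _ h1 h2 e
  · intro i' hi' hne
    by_cases hmem : i + j - i' ∈ q.support
    · apply bk_coeff_zero _ _ _ _ _ (hp.deg i' (Finsupp.mem_support_iff.1 hi'))
      have a1 := Hs_le p.support hpn (fun i => (p i).natDegree) x i' hi'
      have a2 := Hs_le q.support hqn (fun i => (q i).natDegree) x _ hmem
      rw [← hie] at a1
      rw [← hje] at a2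
      have a3 : (x * i' + ((p i').natDegree : ℝ)) + (x * ((i + j - i' : ℤ) : ℝ)
          + ((q (i + j - i')).natDegree : ℝ))
          < (x * i + ((p i).natDegree : ℝ)) + (x * j + ((q j).natDegree : ℝ)) := by
        rcases lt_or_eq_of_le a1 with b1 | b1
        · exact add_lt_add_of_lt_of_le b1 a2
        · rcases lt_or_eq_of_le a2 with b2 | b2
          · exact add_lt_add_of_le_of_lt a1 b2
          · exfalso
            have c1 := him i' hi' (b1.trans hie)
            have c2 := hjm _ hmem (b2.trans hje)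
            omega
      have a4 : (((p i').natDegree + (q (i + j - i')).natDegree : ℕ) : ℝ)
          < (((p i).natDegree + (q j).natDegree : ℕ) : ℝ) := by
        push_cast at a3 ⊢
        nlinarith
      have a5 : (p i').natDegree + (q (i + j - i')).natDegree
          < (p i).natDegree + (q j).natDegree := by exact_mod_cast a4
      omega
    · rw [Finsupp.notMem_support_iff.1 hmem, bk_zero_right, Polynomial.coeff_zero]
  · exact fun h => absurd hi h

lemma Hs_top (S : Finset ℤ) (hS : S.Nonempty) (D : ℤ → ℕ) (d : ℤ) (hd : d ∈ S)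
    (hdm : ∀ i ∈ S, i ≤ d) (x : ℝ) (hx : ∀ i ∈ S, (D i : ℝ) ≤ x) :
    Hs S hS D x = x * d + D d := by
  have hx0 : 0 ≤ x := (Nat.cast_nonneg _).trans (hx d hd)
  apply le_antisymm
  · apply Finset.sup'_le hS
    intro i hi
    by_cases h : i = d
    · rw [h]
    · have h1 : i ≤ d - 1 := by have := hdm i hi; omega
      have h2 : (i : ℝ) ≤ d - 1 := by exact_mod_cast h1
      have h3 : x * i ≤ x * (d - 1) := mul_le_mul_of_nonneg_left h2 hx0
      have h4 := hx i hi
      have h5 : (0 : ℝ) ≤ D d := Nat.cast_nonneg _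
      linarith
  · exact Hs_le S hS D x d hd

lemma Hs_bot (S : Finset ℤ) (hS : S.Nonempty) (D : ℤ → ℕ) (e : ℤ) (he : e ∈ S)
    (hem : ∀ i ∈ S, e ≤ i) (x : ℝ) (hx : ∀ i ∈ S, (D i : ℝ) ≤ -x) :
    Hs S hS D x = x * e + D e := by
  have hx0 : 0 ≤ -x := (Nat.cast_nonneg _).trans (hx e he)
  apply le_antisymm
  · apply Finset.sup'_le hS
    intro i hi
    by_cases h : i = e
    · rw [h]
    · have h1 : e + 1 ≤ i := by have := hem i hi; omega
      have h2 : (e : ℝ) + 1 ≤ i := by exact_mod_cast h1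
      have h3 : (-x) * (e + 1) ≤ (-x) * i := mul_le_mul_of_nonneg_left h2 hx0
      have h4 := hx i hi
      have h5 : (0 : ℝ) ≤ D e := Nat.cast_nonneg _
      linarith
  · exact Hs_le S hS D x e he

theorem ratio (hE : Eqn p q c) (hp : Nice p) (hq : Nice q) (d e m l : ℤ)
    (hd : d ∈ p.support) (hdm : ∀ i ∈ p.support, i ≤ d)
    (he : e ∈ p.support) (hem : ∀ i ∈ p.support, e ≤ i)
    (hm : m ∈ q.support) (hmm : ∀ i ∈ q.support, i ≤ m)
    (hl : l ∈ q.support) (hlm : ∀ i ∈ q.support, l ≤ i)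
    (hd0 : 0 < d) (he0 : e < 0) : l * d = e * m := by
  have hpn : p.support.Nonempty := ⟨d, hd⟩
  have hqn : q.support.Nonempty := ⟨m, hm⟩
  set Df : ℤ → ℕ := fun i => (p i).natDegree with hDf
  set Dg : ℤ → ℕ := fun i => (q i).natDegree with hDg
  set F := Hs p.support hpn Df with hF
  set G := Hs q.support hqn Dg with hG
  set B : ℕ := p.support.sup Df + q.support.sup Dg with hB
  have hBp : ∀ i ∈ p.support, Df i ≤ B := fun i hi => by
    have := Finset.le_sup (f := Df) hi
    omega
  have hBq : ∀ i ∈ q.support, Dg i ≤ B := fun i hi => by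
    have := Finset.le_sup (f := Dg) hi
    omega
  have hbot := single_term hE hp hq e l he hl (fun i hi hne hmem => by
    have a1 := hem i hi
    have a2 := hlm _ hmem
    omega)
  have hFpos : ∀ x : ℝ, 0 < F x := by
    intro x
    rcases le_or_gt 0 x with h | h
    · have h1 := Hs_le p.support hpn Df x d hd
      have h2 : (1 : ℝ) ≤ Df d := by exact_mod_cast hp.deg d (Finsupp.mem_support_iff.1 hd)
      have h3 : 0 ≤ x * d := mul_nonneg h (by exact_mod_cast hd0.le)
      linarith
    · have h1 := Hs_le p.support hpn Df x e he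
      have h2 : (1 : ℝ) ≤ Df e := by exact_mod_cast hp.deg e (Finsupp.mem_support_iff.1 he)
      have h3 : 0 ≤ x * e := mul_nonneg_of_nonpos_of_nonpos h.le (by exact_mod_cast he0.le)
      linarith
  have hFc : Continuous F := Hs_cont _ _ _
  have hGc : Continuous G := Hs_cont _ _ _
  set s : Set ℝ := {x | (l : ℝ) * F x - e * G x = 0} with hs
  have hsc : IsClosed s := isClosed_eq (by fun_prop) continuous_const
  have ha : (-(B : ℝ)) ∈ s := by
    have e1 : F (-(B : ℝ)) = _ := Hs_bot p.support hpn Df e he hem _ (fun i hi => by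
      rw [neg_neg]; exact_mod_cast hBp i hi)
    have e2 : G (-(B : ℝ)) = _ := Hs_bot q.support hqn Dg l hl hlm _ (fun i hi => by
      rw [neg_neg]; exact_mod_cast hBq i hi)
    show (l : ℝ) * F (-(B : ℝ)) - e * G (-(B : ℝ)) = 0
    rw [e1, e2]
    have e3 : (e : ℝ) * Dg l = l * Df e := by exact_mod_cast hbot
    linear_combination -e3
  have hall : ∀ b : ℝ, Set.Icc (-(B : ℝ)) b ⊆ s := by
    intro b
    apply IsClosed.Icc_subset_of_forall_exists_gt (hsc.inter isClosed_Icc) ha
    rintro x ⟨hxs, -⟩ y hy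
    obtain ⟨i, hi, hie, him, hiev⟩ := exists_vertex p.support hpn Df x
    obtain ⟨j, hj, hje, hjm, hjev⟩ := exists_vertex q.support hqn Dg x
    have hrel := vertex_rel hE hp hq hpn hqn x i j hi hj hie him hje hjm
    have hrelR : (i : ℝ) * Dg j = j * Df i := by exact_mod_cast hrel
    have hx0 : (l : ℝ) * F x - e * G x = 0 := hxs
    have h1 : (i : ℝ) * G x = j * F x := by
      have e1 : G x = x * j + Dg j := hje.symm
      have e2 : F x = x * i + Df i := hie.symm
      rw [e1, e2]
      linear_combination hrelR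
    have h2 : (e * j - l * i : ℝ) * F x = 0 := by
      linear_combination (-(e : ℝ)) * h1 - (i : ℝ) * hx0
    have h3 : (e * j - l * i : ℝ) = 0 := by
      rcases mul_eq_zero.1 h2 with h | h
      · exact h
      · exact absurd h (hFpos x).ne'
    obtain ⟨z, ⟨hz1, hz2⟩, hz3⟩ := ((hiev.and hjev).and (Ioc_mem_nhdsGT hy)).exists
    refine ⟨z, ?_, hz3⟩
    show (l : ℝ) * F z - e * G z = 0
    have e1 : F z = z * i + Df i := hz1
    have e2 : G z = z * j + Dg j := hz2
    have e3 : G x = x * j + Dg j := hje.symm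
    have e4 : F x = x * i + Df i := hie.symm
    rw [e3, e4] at hx0
    rw [e1, e2]
    linear_combination hx0 - (z - x) * h3
  have htop : ∀ x : ℝ, (B : ℝ) ≤ x → (l : ℝ) * (x * d + Df d) - e * (x * m + Dg m) = 0 := by
    intro x hx
    have hxB : (0 : ℝ) ≤ B := Nat.cast_nonneg _
    have h1 : x ∈ s := hall x ⟨by linarith, le_rfl⟩
    have e1 : F x = _ := Hs_top p.support hpn Df d hd hdm x (fun i hi =>
      le_trans (by exact_mod_cast hBp i hi) hx)
    have e2 : G x = _ := Hs_top q.support hqn Dg m hm hmm x (fun i hi =>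
      le_trans (by exact_mod_cast hBq i hi) hx)
    have h2 : (l : ℝ) * F x - e * G x = 0 := h1
    rwa [e1, e2] at h2
  have t1 := htop B le_rfl
  have t2 := htop (B + 1) (by linarith)
  have t3 : (l : ℝ) * d = e * m := by linarith
  exact_mod_cast t3

end Pool.Agent.H193R6.DG
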